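import Pool.Agent.MP_18a8a6_lc.Core

/-!
Counting form of the core theorem: all but few parameters `t` give a generator of the subgroup
generated by `a 1, ..., a B`.
-/

set_option autoImplicit false

namespace Pool.Agent.PrimRoot

open Finset

variable {G : Type*} [CommGroup G] (a : ℕ → G) (B T : ℕ) [Finite G]

/-- If the parameter `t` loses no prime factor above `R`, the candidate generates. -/
theorem core_of_good [IsCyclic G] {R t : ℕ}
    (hgood : ∀ q, q.Prime → R < q → q ∣ Nat.card (genSub a B) →
      (wElt a B t) ^ (Nat.card (genSub a B) / q) ≠ 1)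
    {ι : ℕ → ℕ} (hadm : Adm a B R (Nat.card G) ι) :
    Subgroup.zpowers
      (uElt a R (Nat.card G) ι * wElt a B t ^ smoothPart R (Nat.card G)) = genSub a B := by
  set H := genSub a B with hH
  set N := Nat.card G with hN
  set s := smoothPart R N with hs
  set u := uElt a R N ι with hu
  set w := wElt a B t with hw
  have hHpos : 0 < Nat.card H := Nat.card_pos
  have hNne : N ≠ 0 := card_ne_zero'
  have huH : u ∈ H := uElt_mem a B R hadm
  have hwH : w ∈ H := wElt_mem a B t
  have hgH : u * w ^ s ∈ H := Subgroup.mul_mem _ huH (Subgroup.pow_mem _ hwH _)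
  have hHN : Nat.card H ∣ N := Subgroup.card_subgroup_dvd_card H
  have hord : orderOf (u * w ^ s) = Nat.card H := by
    apply orderOf_eq_of_pow_and_pow_div_prime hHpos (pow_card_sub hgH)
    intro q hq hqH
    rw [mul_pow]
    rcases le_or_gt q R with hqT | hqT
    · have hqS : q ∈ smallPrimes R N := (mem_smallPrimes R).2 ⟨⟨hq, hqH.trans hHN, hNne⟩, hqT⟩
      have hw1 : (w ^ s) ^ (Nat.card H / q) = 1 := by
        obtain ⟨m, hm⟩ := hqH
        have hqs : q ∣ s := by
          refine (dvd_pow_self q ?_).trans (dvd_smoothPart R hqS)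
          have h5 := (hq.dvd_iff_one_le_factorization hNne).1
            ((Dvd.intro m hm.symm).trans hHN)
          omega
        obtain ⟨c, hc⟩ := hqs
        rw [← pow_mul, hm, Nat.mul_div_cancel_left _ hq.pos, hc,
          show q * c * m = (q * m) * c by ring, ← hm, pow_mul, pow_card_sub hwH, one_pow]
      rw [hw1, mul_one]
      have hu1 : u ^ (Nat.card H / q) = (a (ι q) ^ cofac N q) ^ (Nat.card H / q) := by
        rw [hu]
        unfold uElt
        rw [← Finset.prod_pow]
        rw [← Finset.mul_prod_erase _ _ hqS]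
        conv_rhs => rw [← mul_one ((a (ι q) ^ cofac N q) ^ (Nat.card H / q))]
        congr 1
        apply Finset.prod_eq_one
        intro r hr
        rw [Finset.mem_erase] at hr
        exact qpart_pow_div (a_mem a B (hadm r hr.2).1) (smallPrimes_prime R hr.2) hq hqH hr.1
      rw [hu1]
      exact qpart_ne_one a B R hadm hqS hqH
    · have hu1 : u ^ (Nat.card H / q) = 1 := by
        rw [hu]
        unfold uElt
        rw [← Finset.prod_pow]
        apply Finset.prod_eq_one
        intro r hr
        refine qpart_pow_div (a_mem a B (hadm r hr).1) (smallPrimes_prime R hr) hq hqH ?_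
        rintro rfl
        have := ((mem_smallPrimes R).1 hr).2
        omega
      rw [hu1, one_mul]
      intro hone
      have h1 : (w ^ (Nat.card H / q)) ^ s = 1 := by
        rw [← pow_mul, mul_comm, pow_mul]; exact hone
      have h2 : (w ^ (Nat.card H / q)) ^ q = 1 := by
        rw [← pow_mul, Nat.div_mul_cancel hqH]; exact pow_card_sub hwH
      have h3 : orderOf (w ^ (Nat.card H / q)) ∣ 1 := by
        have hc : Nat.Coprime q s := coprime_smoothPart R hq hqT
        rw [← hc]
        exact Nat.dvd_gcd (orderOf_dvd_of_pow_eq_one h2) (orderOf_dvd_of_pow_eq_one h1)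
      have h4 : w ^ (Nat.card H / q) = 1 := orderOf_eq_one_iff.1 (Nat.dvd_one.1 h3)
      exact hgood q hq hqT hqH h4
  apply le_antisymm
  · rw [Subgroup.zpowers_le]; exact hgH
  · have hle : Subgroup.zpowers (u * w ^ s) ≤ H := by rw [Subgroup.zpowers_le]; exact hgH
    have hc : Nat.card (Subgroup.zpowers (u * w ^ s)) = Nat.card H := by
      rw [Nat.card_zpowers, hord]
    exact (Subgroup.eq_of_le_of_card_ge hle hc.ge).ge

open Classical in
/-- All but `B * log₂ (card G)` of the parameters `t ∈ [1,T]` give a generator. -/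
theorem bad_total [IsCyclic G] :
    ((Icc 1 T).filter (fun t => ∃ ι : ℕ → ℕ, Adm a B T (Nat.card G) ι ∧ Subgroup.zpowers
      (uElt a T (Nat.card G) ι * wElt a B t ^ smoothPart T (Nat.card G)) ≠ genSub a B)).card ≤
      B * Nat.log 2 (Nat.card G) := by
  set H := genSub a B with hH
  have hHpos : Nat.card H ≠ 0 := Nat.card_pos.ne'
  set Q := (Nat.card H).primeFactors.filter (fun q => T < q) with hQ
  set bad := Q.biUnion (fun q => (Icc 1 T).filter (fun t => (wElt a B t) ^ (Nat.card H / q) = 1))
    with hbad
  have hcard : bad.card ≤ B * Nat.log 2 (Nat.card G) := by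
    calc bad.card ≤ ∑ q ∈ Q, ((Icc 1 T).filter
          (fun t => (wElt a B t) ^ (Nat.card H / q) = 1)).card := Finset.card_biUnion_le
      _ ≤ ∑ _q ∈ Q, B := by
          apply Finset.sum_le_sum
          intro q hq
          rw [hQ, Finset.mem_filter, Nat.mem_primeFactors] at hq
          exact bad_card a B T hq.1.1 hq.2 hq.1.2.1
      _ = Q.card * B := by rw [Finset.sum_const, smul_eq_mul]
      _ ≤ Nat.log 2 (Nat.card G) * B := by
          apply Nat.mul_le_mul_right
          calc Q.card ≤ (Nat.card H).primeFactors.card := Finset.card_filter_le _ _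
            _ ≤ Nat.log 2 (Nat.card H) := card_primeFactors_le _ hHpos
            _ ≤ Nat.log 2 (Nat.card G) :=
                Nat.log_mono_right (Nat.le_of_dvd Nat.card_pos (Subgroup.card_subgroup_dvd_card H))
      _ = _ := mul_comm _ _
  refine (Finset.card_le_card ?_).trans hcard
  intro t ht
  rw [Finset.mem_filter] at ht
  obtain ⟨ht, ι, hadm, hne⟩ := ht
  by_contra hnot
  apply hne
  refine core_of_good a B ?_ hadm
  intro q hq hqT hqH hone
  apply hnot
  rw [hbad, Finset.mem_biUnion]
  refine ⟨q, ?_, ?_⟩
  · rw [hQ, Finset.mem_filter, Nat.mem_primeFactors]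
    exact ⟨⟨hq, hqH, hHpos⟩, hqT⟩
  · rw [Finset.mem_filter]; exact ⟨ht, hone⟩

end Pool.Agent.PrimRoot
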