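import Pool.Agent.MP_18a8a6_lc.Generate
import Pool.Agent.MP_18a8a6_lc.Count

/-!
For almost all primes `p`, almost all members of an explicit list of `(log p)^O(1)` residues are
primitive roots modulo `p`.
-/

set_option autoImplicit false

namespace Pool.Agent.PrimRoot.AlmostAllPrimes

open Finset Pool.Agent.PrimRoot

/-- The candidate with parameter `t`: with `B` and `R` given, and for each prime factor `q ≤ R` of
`p - 1` an index `ι q ≤ B`, it is
`∏_{q ≤ R, q ∣ p-1} (ι q)^((p-1)/q^{v_q(p-1)}) * (∏_{i ≤ B} i^(t^i))^s`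
modulo `p`, where `s` is the `R`-smooth part of `p - 1`. -/
noncomputable def cand (p : ℕ) [Fact p.Prime] (B R : ℕ) (ι : ℕ → ℕ) (t : ℕ) : (ZMod p)ˣ :=
  uElt (res p) R (p - 1) ι * wElt (res p) B t ^ smoothPart R (p - 1)

theorem card_units (p : ℕ) [Fact p.Prime] : Nat.card (ZMod p)ˣ = p - 1 := by
  rw [Nat.card_eq_fintype_card, ZMod.card_units]

theorem orderOf_cand {p : ℕ} [Fact p.Prime] {B R t : ℕ} {ι : ℕ → ℕ}
    (h : Subgroup.zpowers (cand p B R ι t) = genSub (res p) B) (hgen : genSub (res p) B = ⊤) :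
    orderOf (cand p B R ι t) = p - 1 := by
  rw [← Nat.card_zpowers, h, hgen, Subgroup.card_top, card_units]

/-- For every `ε > 0` there are `A, L0` such that for every `L ≥ L0` there is a set `E` of at most
`2 ^ (ε L)` numbers with the following property, for every `c` and with `T = L ^ (A + 1 + c)`.

(a) For every prime `p ∉ E` with exactly `L` binary digits and every admissible `ι` (there is one)
all but at most `T / L ^ c` of the `t ∈ [1, T]` are such that `cand p (L ^ A) T ι t` is a primitive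
root modulo `p`.

(b) There is a single `t ∈ [1, T]` such that `cand p (L ^ A) T ι t` is a primitive root modulo `p`
for all admissible `ι` and all primes `p` with exactly `L` binary digits, with at most
`2 ^ (ε L) + 2 ^ L / L ^ c` exceptions `p`. -/
theorem result (ε : ℝ) (hε : 0 < ε) : ∃ A L0 : ℕ, ∀ L : ℕ, L0 ≤ L →
    ∃ E : Finset ℕ, (E.card : ℝ) ≤ (2 : ℝ) ^ (ε * L) ∧ ∀ c : ℕ,
      (∀ (p : ℕ) [Fact p.Prime], Nat.log 2 p + 1 = L → p ∉ E →
        (∃ ι : ℕ → ℕ, Adm (res p) (L ^ A) (L ^ (A + 1 + c)) (p - 1) ι) ∧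
        ∀ ι : ℕ → ℕ, Adm (res p) (L ^ A) (L ^ (A + 1 + c)) (p - 1) ι →
          ((Icc 1 (L ^ (A + 1 + c))).filter (fun t =>
            orderOf (cand p (L ^ A) (L ^ (A + 1 + c)) ι t) ≠ p - 1)).card * L ^ c ≤
              L ^ (A + 1 + c)) ∧
      ∃ t ∈ Icc 1 (L ^ (A + 1 + c)), ∃ E' : Finset ℕ,
        (E'.card : ℝ) ≤ (2 : ℝ) ^ (ε * L) + 2 ^ L / (L : ℝ) ^ c ∧
        ∀ (p : ℕ) [Fact p.Prime], Nat.log 2 p + 1 = L → p ∉ E' →
          ∀ ι : ℕ → ℕ, Adm (res p) (L ^ A) (L ^ (A + 1 + c)) (p - 1) ι →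
            orderOf (cand p (L ^ A) (L ^ (A + 1 + c)) ι t) = p - 1 := by
  classical
  obtain ⟨k, hk⟩ := exists_nat_gt (1 / ε)
  have hk0 : (0 : ℝ) < k := lt_trans (by positivity) hk
  have hk1 : 1 ≤ k := by exact_mod_cast hk0
  have hkε : 1 ≤ ε * k := by
    rw [div_lt_iff₀ hε] at hk
    linarith
  obtain ⟨A, L0, hA, h⟩ := few_bad k hk1
  refine ⟨A, L0, fun L hL => ?_⟩
  obtain ⟨hL4, hBlt, hbad⟩ := h L hL
  -- the primes with `L` digits
  obtain ⟨P, hP⟩ : ∃ P, P = (Finset.Ico (2 ^ (L - 1)) (2 ^ L)).filter Nat.Prime := ⟨_, rfl⟩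
  have hmemP : ∀ p : ℕ, p ∈ P ↔ (2 ^ (L - 1) ≤ p ∧ p < 2 ^ L) ∧ p.Prime := by
    intro p; rw [hP, Finset.mem_filter, Finset.mem_Ico]
  have hPcard : P.card ≤ 2 ^ L := by
    rw [hP]
    refine (Finset.card_filter_le _ _).trans ?_
    rw [Nat.card_Ico]
    exact Nat.sub_le _ _
  have hlogP : ∀ (p : ℕ) [Fact p.Prime], Nat.log 2 p + 1 = L → p ∈ P := by
    intro p hp hlog
    rw [hmemP]
    refine ⟨⟨?_, ?_⟩, hp.out⟩
    · rw [← hlog, Nat.add_sub_cancel]
      exact Nat.pow_log_le_self 2 hp.out.ne_zero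
    · rw [← hlog]
      exact Nat.lt_pow_succ_log_self (by norm_num) p
  -- exceptional primes
  let E : Finset ℕ := P.filter (fun p => ∀ _ : Fact p.Prime, genSub (res p) (L ^ A) ≠ ⊤)
  have hEcard : E.card < 2 ^ (L / k) := by
    apply hbad
    · intro p hp
      have := (hmemP p).1 (Finset.mem_filter.1 hp).1
      exact ⟨this.2, this.1.1, this.1.2⟩
    · intro p hp
      exact (Finset.mem_filter.1 hp).2
  have hEr : (E.card : ℝ) ≤ (2 : ℝ) ^ (ε * L) := by
    calc (E.card : ℝ) ≤ ((2 ^ (L / k) : ℕ) : ℝ) := by exact_mod_cast hEcard.le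
      _ = (2 : ℝ) ^ ((L / k : ℕ) : ℝ) := by rw [Real.rpow_natCast]; push_cast; rfl
      _ ≤ (2 : ℝ) ^ (ε * L) := by
          apply Real.rpow_le_rpow_of_exponent_le (by norm_num)
          have h1 : ((L / k : ℕ) : ℝ) ≤ (L : ℝ) / k := Nat.cast_div_le
          have h2 : (L : ℝ) / k ≤ ε * L := by
            rw [div_le_iff₀ hk0]
            have : (0 : ℝ) ≤ L := by positivity
            nlinarith
          exact h1.trans h2
  have hgenE : ∀ (p : ℕ) [Fact p.Prime], p ∈ P → p ∉ E → genSub (res p) (L ^ A) = ⊤ := by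
    intro p hp hpP hpE
    by_contra hne
    apply hpE
    rw [Finset.mem_filter]
    refine ⟨hpP, fun hp' => ?_⟩
    have : hp = hp' := Subsingleton.elim _ _
    subst this
    exact hne
  refine ⟨E, hEr, fun c => ?_⟩
  obtain ⟨T, hT⟩ : ∃ T, T = L ^ (A + 1 + c) := ⟨_, rfl⟩
  rw [← hT]
  have hLpos : 0 < L := by omega
  have hTeq : L ^ A * L * L ^ c = T := by rw [hT]; ring
  -- bad parameters
  let badt : ∀ (p : ℕ) [Fact p.Prime], Finset ℕ := fun p _ =>
    (Icc 1 T).filter (fun t => ∃ ι : ℕ → ℕ, Adm (res p) (L ^ A) T (p - 1) ι ∧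
      Subgroup.zpowers (cand p (L ^ A) T ι t) ≠ genSub (res p) (L ^ A))
  have hbadt : ∀ (p : ℕ) [Fact p.Prime], p ∈ P → (badt p).card ≤ L ^ A * L := by
    intro p hp hpP
    have hcyc : IsCyclic (ZMod p)ˣ := inferInstance
    have h1 := bad_total (res p) (L ^ A) T
    rw [card_units] at h1
    refine h1.trans ?_
    apply Nat.mul_le_mul_left
    have h2 := ((hmemP p).1 hpP).1.2
    have h3 : Nat.log 2 (p - 1) ≤ Nat.log 2 (2 ^ L) := Nat.log_mono_right (by omega)
    rwa [Nat.log_pow (by norm_num)] at h3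
  refine ⟨?_, ?_⟩
  · intro p hp hlog hpE
    have hpP := hlogP p hlog
    refine ⟨exists_adm (res p) (L ^ A) T (p - 1) (Nat.one_le_pow _ _ hLpos), fun ι hι => ?_⟩
    have hsub : (Icc 1 T).filter (fun t => orderOf (cand p (L ^ A) T ι t) ≠ p - 1) ⊆ badt p := by
      intro t ht
      rw [Finset.mem_filter] at ht
      rw [Finset.mem_filter]
      refine ⟨ht.1, ι, hι, fun heq => ht.2 ?_⟩
      exact orderOf_cand heq (hgenE p hpP hpE)
    calc _ ≤ (badt p).card * L ^ c := Nat.mul_le_mul_right _ (Finset.card_le_card hsub)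
      _ ≤ L ^ A * L * L ^ c := Nat.mul_le_mul_right _ (hbadt p hpP)
      _ = T := hTeq
  · -- averaging over `t`
    let BadP : ℕ → Finset ℕ := fun t => (P \ E).filter (fun p => ∃ hp : p.Prime,
      t ∈ @badt p ⟨hp⟩)
    have hTpos : 0 < T := by rw [hT]; positivity
    have hsum : ∑ t ∈ Icc 1 T, (BadP t).card ≤ 2 ^ L * (L ^ A * L) := by
      have e1 : ∑ t ∈ Icc 1 T, (BadP t).card =
          ∑ p ∈ P \ E, ((Icc 1 T).filter (fun t => ∃ hp : p.Prime, t ∈ @badt p ⟨hp⟩)).card := by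
        simp only [BadP, Finset.card_filter]
        exact Finset.sum_comm
      rw [e1]
      calc ∑ p ∈ P \ E, ((Icc 1 T).filter (fun t => ∃ hp : p.Prime, t ∈ @badt p ⟨hp⟩)).card
          ≤ ∑ _p ∈ P \ E, L ^ A * L := by
            apply Finset.sum_le_sum
            intro p hp
            have hpP : p ∈ P := (Finset.mem_sdiff.1 hp).1
            have hpp : p.Prime := ((hmemP p).1 hpP).2
            have : Fact p.Prime := ⟨hpp⟩
            refine (Finset.card_le_card ?_).trans (hbadt p hpP)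
            intro t ht
            rw [Finset.mem_filter] at ht
            obtain ⟨_, hp', h5⟩ := ht
            exact h5
        _ = (P \ E).card * (L ^ A * L) := by rw [Finset.sum_const, smul_eq_mul]
        _ ≤ 2 ^ L * (L ^ A * L) :=
            Nat.mul_le_mul_right _ ((Finset.card_le_card Finset.sdiff_subset).trans hPcard)
    have hex : ∃ t ∈ Icc 1 T, (BadP t).card * L ^ c ≤ 2 ^ L := by
      by_contra hcon
      push Not at hcon
      have h6 : ∑ _t ∈ Icc 1 T, 2 ^ L < ∑ t ∈ Icc 1 T, (BadP t).card * L ^ c :=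
        Finset.sum_lt_sum_of_nonempty ⟨1, Finset.mem_Icc.2 ⟨le_rfl, hTpos⟩⟩ fun t ht => hcon t ht
      rw [Finset.sum_const, smul_eq_mul, Nat.card_Icc, Nat.add_sub_cancel, ← Finset.sum_mul] at h6
      have h7 : (∑ t ∈ Icc 1 T, (BadP t).card) * L ^ c ≤ 2 ^ L * (L ^ A * L) * L ^ c :=
        Nat.mul_le_mul_right _ hsum
      have h8 : 2 ^ L * (L ^ A * L) * L ^ c = T * 2 ^ L := by rw [← hTeq]; ring
      omega
    obtain ⟨t, ht, htb⟩ := hex
    refine ⟨t, ht, E ∪ BadP t, ?_, ?_⟩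
    · have h9 : ((BadP t).card : ℝ) ≤ 2 ^ L / (L : ℝ) ^ c := by
        have hLr : (0 : ℝ) < (L : ℝ) ^ c := by
          have : (0 : ℝ) < L := by exact_mod_cast hLpos
          positivity
        rw [le_div_iff₀ hLr]
        exact_mod_cast htb
      have h10 : ((E ∪ BadP t).card : ℝ) ≤ (E.card : ℝ) + (BadP t).card := by
        exact_mod_cast Finset.card_union_le _ _
      linarith
    · intro p hp hlog hpE ι hι
      have hpP := hlogP p hlog
      rw [Finset.mem_union, not_or] at hpE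
      have hgood : t ∉ badt p := by
        intro hmem
        apply hpE.2
        rw [Finset.mem_filter, Finset.mem_sdiff]
        exact ⟨⟨hpP, hpE.1⟩, hp.out, hmem⟩
      have heq : Subgroup.zpowers (cand p (L ^ A) T ι t) = genSub (res p) (L ^ A) := by
        by_contra hne
        apply hgood
        rw [Finset.mem_filter]
        exact ⟨ht, ι, hι, hne⟩
      exact orderOf_cand heq (hgenE p hpP hpE.1)

end Pool.Agent.PrimRoot.AlmostAllPrimes
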