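import Pool.Agent.MP_18a8a6_lc.Quant

/-!
An explicit list of `(log p)^O(1)` residues modulo a prime `p` that contains an element of index
less than `p^ε`.
-/

set_option autoImplicit false

namespace Pool.Agent.PrimRoot.CandidateList

open Finset Pool.Agent.PrimRoot

/-- The candidate with parameter `t`: with `B` and `R` given, and for each prime factor `q ≤ R` of
`p - 1` an index `ι q ≤ B`, it is
`∏_{q ≤ R, q ∣ p-1} (ι q)^((p-1)/q^{v_q(p-1)}) * (∏_{i ≤ B} i^(t^i))^s`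
modulo `p`, where `s` is the `R`-smooth part of `p - 1`. -/
noncomputable def cand (p : ℕ) [Fact p.Prime] (B R : ℕ) (ι : ℕ → ℕ) (t : ℕ) : (ZMod p)ˣ :=
  uElt (res p) R (p - 1) ι * wElt (res p) B t ^ smoothPart R (p - 1)

/-- For every `ε > 0` there are `A, p0` such that for every prime `p ≥ p0` the following holds with
`L = ⌊log₂ p⌋ + 1`, `B = L ^ A`, `T = L ^ (A + 1)` and every `R ≥ T`. Choose, for each prime factor
`q ≤ R` of `p - 1`, an index `ι q ≤ B` for which the order of `i ^ ((p-1)/q^v)` is maximal. Then one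
of the `T` candidates generates a subgroup of index less than `p ^ ε` which contains
`1, 2, ..., B`. -/
theorem result (ε : ℝ) (hε : 0 < ε) : ∃ A p0 : ℕ, ∀ (p : ℕ) [Fact p.Prime], p0 ≤ p →
    ∀ R : ℕ, (Nat.log 2 p + 1) ^ (A + 1) ≤ R →
      (∃ ι : ℕ → ℕ, Adm (res p) ((Nat.log 2 p + 1) ^ A) R (p - 1) ι) ∧
      ∀ ι : ℕ → ℕ, Adm (res p) ((Nat.log 2 p + 1) ^ A) R (p - 1) ι →
        ∃ t ∈ Icc 1 ((Nat.log 2 p + 1) ^ (A + 1)),
          ((Subgroup.zpowers (cand p ((Nat.log 2 p + 1) ^ A) R ι t)).index : ℝ) < (p : ℝ) ^ ε ∧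
          ∀ i ∈ Icc 1 ((Nat.log 2 p + 1) ^ A),
            res p i ∈ Subgroup.zpowers (cand p ((Nat.log 2 p + 1) ^ A) R ι t) := by
  obtain ⟨A, p0, hA, h⟩ := index_lt ε hε
  refine ⟨A, p0, fun p _ hp R hR => ?_⟩
  obtain ⟨hBp, hL4, hT, hidx⟩ := h p hp
  set L := Nat.log 2 p + 1 with hL
  have hN : Nat.card (ZMod p)ˣ = p - 1 := by rw [Nat.card_eq_fintype_card, ZMod.card_units]
  refine ⟨exists_adm (res p) (L ^ A) R (p - 1) (Nat.one_le_pow _ _ (by omega)), ?_⟩
  intro ι hι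
  have hcyc : IsCyclic (ZMod p)ˣ := inferInstance
  have hlt : L ^ A * Nat.log 2 (Nat.card (ZMod p)ˣ) < L ^ (A + 1) := by
    rw [hN, pow_succ]
    apply Nat.mul_lt_mul_of_pos_left
    · have : Nat.log 2 (p - 1) ≤ Nat.log 2 p := Nat.log_mono_right (Nat.sub_le _ _)
      omega
    · exact Nat.pow_pos (by omega)
  rw [← hN] at hι
  obtain ⟨t, ht, hz⟩ := core (res p) (L ^ A) (L ^ (A + 1)) hlt hR hι
  rw [hN] at hz
  refine ⟨t, ht, ?_, ?_⟩
  · unfold cand; rw [hz]; exact hidx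
  · intro i hi
    unfold cand; rw [hz]; exact a_mem (res p) (L ^ A) hi

end Pool.Agent.PrimRoot.CandidateList
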