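import Pool.Agent.MP_18a8a6_lc.Defs

/-!
Algebraic core: in a finite cyclic group, the subgroup generated by `a 1, ..., a B` is generated by
one of the elements `uElt * (wElt t) ^ sm`, `1 ≤ t ≤ T`.
-/

set_option autoImplicit false

namespace Pool.Agent.PrimRoot

open Finset

section
variable {G : Type*} [CommGroup G] (a : ℕ → G) (B T : ℕ)

/-- `a 1, ..., a B` generate this subgroup -/
def genSub : Subgroup G := Subgroup.closure (a '' Set.Icc 1 B)

theorem exists_adm (N : ℕ) (hB : 1 ≤ B) : ∃ ι, Adm a B T N ι := by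
  classical
  have h : ∀ q, ∃ i ∈ Icc 1 B, ∀ j ∈ Icc 1 B, orderOf (a j ^ cofac N q) ≤
      orderOf (a i ^ cofac N q) := by
    intro q
    exact Finset.exists_max_image (Icc 1 B) (fun i => orderOf (a i ^ cofac N q))
      ⟨1, Finset.mem_Icc.2 ⟨le_rfl, hB⟩⟩
  choose ι h1 h2 using h
  exact ⟨ι, fun q _ => ⟨h1 q, h2 q⟩⟩

theorem a_mem {i : ℕ} (hi : i ∈ Icc 1 B) : a i ∈ genSub a B := by
  apply Subgroup.subset_closure
  refine ⟨i, ?_, rfl⟩
  simpa using hi

theorem wElt_mem (t : ℕ) : wElt a B t ∈ genSub a B :=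
  Subgroup.prod_mem _ fun _ hi => Subgroup.pow_mem _ (a_mem a B hi) _

theorem cofac_mul {N q : ℕ} : cofac N q * q ^ N.factorization q = N :=
  Nat.div_mul_cancel (Nat.ordProj_dvd N q)

theorem not_dvd_cofac {N q : ℕ} (hq : q.Prime) (hN : N ≠ 0) : ¬ q ∣ cofac N q :=
  Nat.not_dvd_ordCompl hq hN

theorem uElt_mem {N : ℕ} {ι : ℕ → ℕ} (h : Adm a B T N ι) : uElt a T N ι ∈ genSub a B :=
  Subgroup.prod_mem _ fun q hq => Subgroup.pow_mem _ (a_mem a B (h q hq).1) _

/-- an element of `G` raised to the cofactor has `q`-power order dividing `q ^ v` -/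
theorem pow_cofac_pow (x : G) (q : ℕ) :
    (x ^ cofac (Nat.card G) q) ^ (q ^ (Nat.card G).factorization q) = 1 := by
  rw [← pow_mul, cofac_mul, pow_card_eq_one']

theorem pow_card_sub {H : Subgroup G} {x : G} (hx : x ∈ H) : x ^ Nat.card H = 1 := by
  have h := pow_card_eq_one' (x := (⟨x, hx⟩ : H))
  have h2 := congrArg (Subtype.val) h
  rw [SubmonoidClass.coe_pow] at h2
  exact h2

/-- If all elements of a cyclic group `H` satisfy `x ^ m = 1` then `card H ∣ m`. -/
theorem card_dvd_of_forall [IsCyclic G] {H : Subgroup G} {m : ℕ}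
    (h : ∀ x ∈ H, x ^ m = 1) : Nat.card H ∣ m := by
  obtain ⟨g, hg⟩ := IsCyclic.exists_generator (α := H)
  have h1 : orderOf g = Nat.card H := orderOf_eq_card_of_forall_mem_zpowers hg
  rw [← h1]
  apply orderOf_dvd_of_pow_eq_one
  apply Subtype.ext
  simpa using h g g.2

/-- If generators satisfy `x ^ m = 1`, all elements of the subgroup do. -/
theorem forall_of_gen {m : ℕ} (h : ∀ i ∈ Icc 1 B, a i ^ m = 1) :
    ∀ x ∈ genSub a B, x ^ m = 1 := by
  have hle : genSub a B ≤ (powMonoidHom m : G →* G).ker := by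
    unfold genSub
    rw [Subgroup.closure_le]
    rintro _ ⟨i, hi, rfl⟩
    have : i ∈ Icc 1 B := by simpa using hi
    simpa [MonoidHom.mem_ker] using h i this
  intro x hx
  have := hle hx
  simpa [MonoidHom.mem_ker] using this

theorem smallPrimes_prime {N q : ℕ} (h : q ∈ smallPrimes T N) : q.Prime :=
  Nat.prime_of_mem_primeFactors (Finset.mem_filter.1 h).1

theorem mem_smallPrimes {N q : ℕ} : q ∈ smallPrimes T N ↔ (q.Prime ∧ q ∣ N ∧ N ≠ 0) ∧ q ≤ T := by
  simp [smallPrimes, Nat.mem_primeFactors]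

/-- for `q > T` the smooth part is prime to `q` -/
theorem coprime_smoothPart {N q : ℕ} (hq : q.Prime) (hqT : T < q) :
    Nat.Coprime q (smoothPart T N) := by
  unfold smoothPart
  apply Nat.Coprime.prod_right
  intro r hr
  apply Nat.Coprime.pow_right
  rw [Nat.coprime_primes hq (smallPrimes_prime T hr)]
  have := (mem_smallPrimes T).1 hr
  omega

theorem dvd_smoothPart {N q : ℕ} (h : q ∈ smallPrimes T N) :
    q ^ N.factorization q ∣ smoothPart T N :=
  Finset.dvd_prod_of_mem (fun q => q ^ N.factorization q) h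

variable [Finite G]

theorem card_ne_zero' : Nat.card G ≠ 0 := Nat.card_pos.ne'

/-- order of the `q`-component is a power of `q` that divides `card H` -/
theorem qpart_pow_div {H : Subgroup G} {x : G} (hx : x ∈ H) {q r : ℕ} (hq : q.Prime)
    (hr : r.Prime) (hrH : r ∣ Nat.card H) (hqr : q ≠ r) :
    (x ^ cofac (Nat.card G) q) ^ (Nat.card H / r) = 1 := by
  set y := x ^ cofac (Nat.card G) q with hy
  have h1 : orderOf y ∣ q ^ (Nat.card G).factorization q :=
    orderOf_dvd_of_pow_eq_one (pow_cofac_pow x q)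
  have h2 : orderOf y ∣ Nat.card H :=
    orderOf_dvd_of_pow_eq_one (pow_card_sub (Subgroup.pow_mem _ hx _))
  obtain ⟨m, hm⟩ := hrH
  have hcop : Nat.Coprime (orderOf y) r := by
    apply Nat.Coprime.coprime_dvd_left h1
    apply Nat.Coprime.pow_left
    exact (Nat.coprime_primes hq hr).2 hqr
  have h3 : orderOf y ∣ m := by
    apply hcop.dvd_of_dvd_mul_left
    rwa [hm] at h2
  rw [hm, Nat.mul_div_cancel_left _ hr.pos]
  exact orderOf_dvd_iff_pow_eq_one.1 h3

/-- the maximal `q`-component does not vanish when raised to `card H / q` -/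
theorem qpart_ne_one [IsCyclic G] {ι : ℕ → ℕ} (hadm : Adm a B T (Nat.card G) ι) {q : ℕ}
    (hq : q ∈ smallPrimes T (Nat.card G)) (hqH : q ∣ Nat.card (genSub a B)) :
    (a (ι q) ^ cofac (Nat.card G) q) ^ (Nat.card (genSub a B) / q) ≠ 1 := by
  intro hone
  have hqp := smallPrimes_prime T hq
  obtain ⟨hmem, hmax⟩ := hadm q hq
  set N := Nat.card G with hN
  set H := genSub a B with hH
  set y := a (ι q) ^ cofac N q with hy
  have hall : ∀ i ∈ Icc 1 B, a i ^ (cofac N q * (Nat.card H / q)) = 1 := by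
    intro i hi
    rw [pow_mul]
    have h1 := hmax i hi
    have h2 : orderOf (a i ^ cofac N q) ∣ q ^ N.factorization q :=
      orderOf_dvd_of_pow_eq_one (pow_cofac_pow (a i) q)
    have h3 : orderOf y ∣ q ^ N.factorization q :=
      orderOf_dvd_of_pow_eq_one (pow_cofac_pow (a (ι q)) q)
    obtain ⟨j, _, hj⟩ := (Nat.dvd_prime_pow hqp).1 h2
    obtain ⟨l, _, hl⟩ := (Nat.dvd_prime_pow hqp).1 h3
    have h4 : orderOf (a i ^ cofac N q) ∣ orderOf y := by
      rw [hj, hl] at h1 ⊢
      exact pow_dvd_pow _ ((Nat.pow_le_pow_iff_right hqp.one_lt).1 h1)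
    exact orderOf_dvd_iff_pow_eq_one.1 (h4.trans (orderOf_dvd_of_pow_eq_one hone))
  have hdvd : Nat.card H ∣ cofac N q * (Nat.card H / q) :=
    card_dvd_of_forall (forall_of_gen a B hall)
  obtain ⟨m, hm⟩ := hqH
  have hmpos : 0 < m := by
    rcases Nat.eq_zero_or_pos m with h | h
    · exfalso
      have : 0 < Nat.card H := Nat.card_pos
      rw [hm, h] at this; simp at this
    · exact h
  rw [hm, Nat.mul_div_cancel_left _ hqp.pos] at hdvd
  have : q ∣ cofac N q := Nat.dvd_of_mul_dvd_mul_right hmpos hdvd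
  exact not_dvd_cofac hqp card_ne_zero' this

open Classical in
/-- **Few bad parameters.** For a prime `q > T` dividing `card H`, at most `B` of the `t ∈ [1,T]`
are such that `wElt t` loses a factor `q`. -/
theorem bad_card [IsCyclic G] {q : ℕ} (hq : q.Prime) (hqT : T < q)
    (hqH : q ∣ Nat.card (genSub a B)) :
    ((Icc 1 T).filter (fun t => (wElt a B t) ^ (Nat.card (genSub a B) / q) = 1)).card ≤ B := by
  set H := genSub a B with hH
  obtain ⟨g, hg⟩ := IsCyclic.exists_generator (α := H)
  have hgord : orderOf (g : G) = Nat.card H := by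
    rw [Subgroup.orderOf_coe]; exact orderOf_eq_card_of_forall_mem_zpowers hg
  have hcardpos : 0 < Nat.card H := Nat.card_pos
  obtain ⟨m, hm⟩ := hqH
  have hmpos : 0 < m := by
    rcases Nat.eq_zero_or_pos m with h | h
    · exfalso; rw [hm, h] at hcardpos; simp at hcardpos
    · exact h
  have hmd : Nat.card H / q = m := by rw [hm, Nat.mul_div_cancel_left _ hq.pos]
  rw [hmd]
  have hz : orderOf ((g : G) ^ m) = q := by
    rw [orderOf_pow, hgord, hm, Nat.gcd_eq_right (Dvd.intro_left q rfl),
      Nat.mul_div_cancel _ hmpos]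
  -- exponents
  have hexp : ∀ i ∈ Icc 1 B, ∃ e : ℕ, (g : G) ^ e = a i := by
    intro i hi
    have h1 := hg ⟨a i, a_mem a B hi⟩
    rw [mem_zpowers_iff_mem_range_orderOf, Finset.mem_image] at h1
    obtain ⟨e, _, he⟩ := h1
    refine ⟨e, ?_⟩
    have := congrArg Subtype.val he
    rwa [SubmonoidClass.coe_pow] at this
  choose! e he using hexp
  have : Fact q.Prime := ⟨hq⟩
  let P : Polynomial (ZMod q) := ∑ i ∈ Icc 1 B, Polynomial.C ((e i : ℕ) : ZMod q) * Polynomial.X ^ i
  have hw : ∀ t : ℕ, (wElt a B t) ^ m = ((g : G) ^ m) ^ (∑ i ∈ Icc 1 B, e i * t ^ i) := by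
    intro t
    unfold wElt
    rw [← pow_mul, Finset.mul_sum, ← Finset.prod_pow_eq_pow_sum, ← Finset.prod_pow]
    apply Finset.prod_congr rfl
    intro i hi
    rw [← he i hi, ← pow_mul, ← pow_mul]
    congr 1; ring
  have hroot : ∀ t : ℕ, (wElt a B t) ^ m = 1 → P.eval (t : ZMod q) = 0 := by
    intro t ht
    rw [hw t] at ht
    have h1 := orderOf_dvd_of_pow_eq_one ht
    rw [hz] at h1
    have h2 : ((∑ i ∈ Icc 1 B, e i * t ^ i : ℕ) : ZMod q) = 0 :=
      (ZMod.natCast_eq_zero_iff _ _).2 h1
    simp only [P, Polynomial.eval_finsetSum, Polynomial.eval_mul, Polynomial.eval_C,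
      Polynomial.eval_pow, Polynomial.eval_X]
    push_cast at h2
    exact h2
  have hP : P ≠ 0 := by
    intro h0
    have hall : ∀ i ∈ Icc 1 B, a i ^ m = 1 := by
      intro i hi
      have hc : P.coeff i = 0 := by rw [h0]; simp
      have hc2 : P.coeff i = ((e i : ℕ) : ZMod q) := by
        simp only [P, Polynomial.finsetSum_coeff, Polynomial.coeff_C_mul, Polynomial.coeff_X_pow]
        rw [Finset.sum_eq_single i]
        · simp
        · intro j _ hj; simp [Ne.symm hj]
        · intro h; exact absurd hi h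
      rw [hc2, ZMod.natCast_eq_zero_iff] at hc
      obtain ⟨c, hc⟩ := hc
      rw [← he i hi, ← pow_mul, hc, mul_comm (q * c) m, ← mul_assoc, pow_mul, mul_comm m q, ← hm,
        ← hgord, pow_orderOf_eq_one, one_pow]
    have h1 := card_dvd_of_forall (forall_of_gen a B hall)
    rw [← hH, hm] at h1
    have h2 := Nat.le_of_dvd hmpos h1
    have : m * 1 < q * m := by nlinarith [hq.one_lt]
    omega
  have hdeg : P.natDegree ≤ B := by
    apply Polynomial.natDegree_sum_le_of_forall_le
    intro i hi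
    refine (Polynomial.natDegree_C_mul_X_pow_le _ _).trans ?_
    exact (Finset.mem_Icc.1 hi).2
  calc ((Icc 1 T).filter (fun t => (wElt a B t) ^ m = 1)).card
      ≤ P.roots.toFinset.card := by
        apply Finset.card_le_card_of_injOn (fun t : ℕ => (t : ZMod q))
        · intro t ht
          rw [Finset.mem_coe, Finset.mem_filter] at ht
          rw [Finset.mem_coe, Multiset.mem_toFinset, Polynomial.mem_roots hP]
          exact hroot t ht.2
        · intro t ht t' ht' htt
          rw [Finset.mem_coe, Finset.mem_filter, Finset.mem_Icc] at ht ht'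
          have h1 : (t : ZMod q) = (t' : ZMod q) := htt
          rw [ZMod.natCast_eq_natCast_iff'] at h1
          rwa [Nat.mod_eq_of_lt (by omega), Nat.mod_eq_of_lt (by omega)] at h1
    _ ≤ Multiset.card P.roots := Multiset.toFinset_card_le _
    _ ≤ P.natDegree := Polynomial.card_roots' _
    _ ≤ B := hdeg

theorem card_primeFactors_le (n : ℕ) (hn : n ≠ 0) : n.primeFactors.card ≤ Nat.log 2 n := by
  apply Nat.le_log_of_pow_le (by norm_num)
  calc 2 ^ n.primeFactors.card = ∏ _q ∈ n.primeFactors, 2 := by rw [Finset.prod_const]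
    _ ≤ ∏ q ∈ n.primeFactors, q :=
        Finset.prod_le_prod' fun q hq => (Nat.prime_of_mem_primeFactors hq).two_le
    _ ≤ n := Nat.le_of_dvd (Nat.pos_of_ne_zero hn) (Nat.prod_primeFactors_dvd n)

open Classical in
/-- There is a parameter `t ∈ [1,T]` that is good for all primes `q > T` dividing `card H`. -/
theorem exists_good [IsCyclic G] (hT : B * Nat.log 2 (Nat.card G) < T) :
    ∃ t ∈ Icc 1 T, ∀ q, q.Prime → T < q → q ∣ Nat.card (genSub a B) →
      (wElt a B t) ^ (Nat.card (genSub a B) / q) ≠ 1 := by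
  set H := genSub a B with hH
  have hHpos : Nat.card H ≠ 0 := Nat.card_pos.ne'
  set Q := (Nat.card H).primeFactors.filter (fun q => T < q) with hQ
  set bad := Q.biUnion (fun q => (Icc 1 T).filter (fun t => (wElt a B t) ^ (Nat.card H / q) = 1))
    with hbad
  have hcard : bad.card < T := by
    calc bad.card ≤ ∑ q ∈ Q, ((Icc 1 T).filter
          (fun t => (wElt a B t) ^ (Nat.card H / q) = 1)).card := Finset.card_biUnion_le
      _ ≤ ∑ _q ∈ Q, B := by
          apply Finset.sum_le_sum
          intro q hq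
          rw [hQ, Finset.mem_filter, Nat.mem_primeFactors] at hq
          exact bad_card a B T hq.1.1 hq.2 hq.1.2.1
      _ = Q.card * B := by rw [Finset.sum_const, smul_eq_mul]
      _ ≤ Nat.log 2 (Nat.card G) * B := by
          apply Nat.mul_le_mul_right
          calc Q.card ≤ (Nat.card H).primeFactors.card := Finset.card_filter_le _ _
            _ ≤ Nat.log 2 (Nat.card H) := card_primeFactors_le _ hHpos
            _ ≤ Nat.log 2 (Nat.card G) :=
                Nat.log_mono_right (Nat.le_of_dvd Nat.card_pos (Subgroup.card_subgroup_dvd_card H))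
      _ < T := by rw [mul_comm]; exact hT
  have hex : ∃ t ∈ Icc 1 T, t ∉ bad := by
    by_contra hcon
    push Not at hcon
    have : (Icc 1 T).card ≤ bad.card := Finset.card_le_card hcon
    rw [Nat.card_Icc] at this
    omega
  obtain ⟨t, ht, htb⟩ := hex
  refine ⟨t, ht, ?_⟩
  intro q hq hqT hqH hone
  apply htb
  rw [hbad, Finset.mem_biUnion]
  refine ⟨q, ?_, ?_⟩
  · rw [hQ, Finset.mem_filter, Nat.mem_primeFactors]
    exact ⟨⟨hq, hqH, hHpos⟩, hqT⟩
  · rw [Finset.mem_filter]; exact ⟨ht, hone⟩

/-- **Core theorem.** -/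
theorem core [IsCyclic G] (hT : B * Nat.log 2 (Nat.card G) < T) {R : ℕ} (hTR : T ≤ R)
    {ι : ℕ → ℕ} (hadm : Adm a B R (Nat.card G) ι) :
    ∃ t ∈ Icc 1 T, Subgroup.zpowers
      (uElt a R (Nat.card G) ι * wElt a B t ^ smoothPart R (Nat.card G)) = genSub a B := by
  obtain ⟨t, ht, hgood⟩ := exists_good a B T hT
  refine ⟨t, ht, ?_⟩
  set H := genSub a B with hH
  set N := Nat.card G with hN
  set s := smoothPart R N with hs
  set u := uElt a R N ι with hu
  set w := wElt a B t with hw
  have hHpos : 0 < Nat.card H := Nat.card_pos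
  have hNne : N ≠ 0 := card_ne_zero'
  have huH : u ∈ H := uElt_mem a B R hadm
  have hwH : w ∈ H := wElt_mem a B t
  have hgH : u * w ^ s ∈ H := Subgroup.mul_mem _ huH (Subgroup.pow_mem _ hwH _)
  have hHN : Nat.card H ∣ N := Subgroup.card_subgroup_dvd_card H
  -- order of g is card H
  have hord : orderOf (u * w ^ s) = Nat.card H := by
    apply orderOf_eq_of_pow_and_pow_div_prime hHpos (pow_card_sub hgH)
    intro q hq hqH
    rw [mul_pow]
    rcases le_or_gt q R with hqT | hqT
    · -- small prime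
      have hqS : q ∈ smallPrimes R N := (mem_smallPrimes R).2 ⟨⟨hq, hqH.trans hHN, hNne⟩, hqT⟩
      have hw1 : (w ^ s) ^ (Nat.card H / q) = 1 := by
        obtain ⟨m, hm⟩ := hqH
        have hqs : q ∣ s := by
          refine (dvd_pow_self q ?_).trans (dvd_smoothPart R hqS)
          have h5 := (hq.dvd_iff_one_le_factorization hNne).1
            ((Dvd.intro m hm.symm).trans hHN)
          omega
        obtain ⟨c, hc⟩ := hqs
        rw [← pow_mul, hm, Nat.mul_div_cancel_left _ hq.pos, hc,
          show q * c * m = (q * m) * c by ring, ← hm, pow_mul, pow_card_sub hwH, one_pow]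
      rw [hw1, mul_one]
      have hu1 : u ^ (Nat.card H / q) = (a (ι q) ^ cofac N q) ^ (Nat.card H / q) := by
        rw [hu]
        unfold uElt
        rw [← Finset.prod_pow]
        rw [← Finset.mul_prod_erase _ _ hqS]
        conv_rhs => rw [← mul_one ((a (ι q) ^ cofac N q) ^ (Nat.card H / q))]
        congr 1
        apply Finset.prod_eq_one
        intro r hr
        rw [Finset.mem_erase] at hr
        exact qpart_pow_div (a_mem a B (hadm r hr.2).1) (smallPrimes_prime R hr.2) hq hqH hr.1
      rw [hu1]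
      exact qpart_ne_one a B R hadm hqS hqH
    · -- large prime
      have hu1 : u ^ (Nat.card H / q) = 1 := by
        rw [hu]
        unfold uElt
        rw [← Finset.prod_pow]
        apply Finset.prod_eq_one
        intro r hr
        refine qpart_pow_div (a_mem a B (hadm r hr).1) (smallPrimes_prime R hr) hq hqH ?_
        rintro rfl
        have := ((mem_smallPrimes R).1 hr).2
        omega
      rw [hu1, one_mul]
      intro hone
      have h1 : (w ^ (Nat.card H / q)) ^ s = 1 := by
        rw [← pow_mul, mul_comm, pow_mul]; exact hone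
      have h2 : (w ^ (Nat.card H / q)) ^ q = 1 := by
        rw [← pow_mul, Nat.div_mul_cancel hqH]; exact pow_card_sub hwH
      have h3 : orderOf (w ^ (Nat.card H / q)) ∣ 1 := by
        have hc : Nat.Coprime q s := coprime_smoothPart R hq hqT
        rw [← hc]
        exact Nat.dvd_gcd (orderOf_dvd_of_pow_eq_one h2) (orderOf_dvd_of_pow_eq_one h1)
      have h4 : w ^ (Nat.card H / q) = 1 := orderOf_eq_one_iff.1 (Nat.dvd_one.1 h3)
      exact hgood q hq (lt_of_le_of_lt hTR hqT) hqH h4
  apply le_antisymm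
  · rw [Subgroup.zpowers_le]; exact hgH
  · have hle : Subgroup.zpowers (u * w ^ s) ≤ H := by rw [Subgroup.zpowers_le]; exact hgH
    have hc : Nat.card (Subgroup.zpowers (u * w ^ s)) = Nat.card H := by
      rw [Nat.card_zpowers, hord]
    exact (Subgroup.eq_of_le_of_card_ge hle hc.ge).ge

end

end Pool.Agent.PrimRoot
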