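import Mathlib

/-!
Definitions for the lists of candidates for elements of small index modulo a prime.
-/

set_option autoImplicit false

namespace Pool.Agent.PrimRoot

open Finset

/-- The class of `i` modulo `p`, as a unit (and `1` if `p` divides `i`). -/
noncomputable def res (p : ℕ) [Fact p.Prime] (i : ℕ) : (ZMod p)ˣ :=
  if h : (i : ZMod p) ≠ 0 then Units.mk0 (i : ZMod p) h else 1

/-- The prime factors of `N` that are at most `R`. -/
def smallPrimes (R N : ℕ) : Finset ℕ := N.primeFactors.filter (fun q => q ≤ R)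

/-- The `R`-smooth part of `N`: the largest divisor of `N` all of whose prime factors are at
most `R`. -/
def smoothPart (R N : ℕ) : ℕ := ∏ q ∈ smallPrimes R N, q ^ N.factorization q

/-- The largest divisor of `N` that is not divisible by the prime `q`. -/
def cofac (N q : ℕ) : ℕ := N / q ^ N.factorization q

/-- The product of the `a i ^ (t ^ i)`, `1 ≤ i ≤ B`. -/
def wElt {G : Type*} [CommGroup G] (a : ℕ → G) (B t : ℕ) : G := ∏ i ∈ Icc 1 B, a i ^ (t ^ i)

/-- The product, over the prime factors `q ≤ R` of `N`, of `a (ι q) ^ (cofac N q)`. -/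
def uElt {G : Type*} [CommGroup G] (a : ℕ → G) (R N : ℕ) (ι : ℕ → ℕ) : G :=
  ∏ q ∈ smallPrimes R N, a (ι q) ^ cofac N q

/-- For every prime factor `q ≤ R` of `N`, the index `ι q` lies in `[1, B]` and maximizes there the
order of `a i ^ (cofac N q)`. -/
def Adm {G : Type*} [CommGroup G] (a : ℕ → G) (B R N : ℕ) (ι : ℕ → ℕ) : Prop :=
  ∀ q ∈ smallPrimes R N, ι q ∈ Icc 1 B ∧
    ∀ i ∈ Icc 1 B, orderOf (a i ^ cofac N q) ≤ orderOf (a (ι q) ^ cofac N q)

end Pool.Agent.PrimRoot
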