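import Pool.Agent.MP_18a8a6_lc.Core

/-!
Products of powers of finitely many fixed elements of a finite cyclic group: the mean of the
logarithm of the index of such a product in the group generated by the elements.
-/

set_option autoImplicit false

namespace Pool.Agent.PrimRoot

open Finset

/-- at most `M / d + 1` elements of `Fin M` lie in a residue class modulo `d` -/
theorem card_class_le (M : ℕ) {d : ℕ} (hd : 0 < d) (S : Finset (Fin M))
    (hS : ∀ i ∈ S, ∀ j ∈ S, ((i : ℕ)) ≡ (j : ℕ) [MOD d]) : S.card ≤ M / d + 1 := by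
  rcases S.eq_empty_or_nonempty with rfl | ⟨i0, hi0⟩
  · simp
  have h1 : S.card ≤ ((range M).filter (fun n => n ≡ (i0 : ℕ) [MOD d])).card := by
    rw [← Finset.card_map Fin.valEmbedding]
    apply card_le_card
    intro n hn
    rw [mem_map] at hn
    obtain ⟨i, hi, rfl⟩ := hn
    exact mem_filter.2 ⟨mem_range.2 i.2, hS i hi i0 hi0⟩
  have h2 := Nat.count_modEq_card M hd (i0 : ℕ)
  rw [Nat.count_eq_card_filter_range] at h2
  split_ifs at h2 <;> omega

theorem card_dvd_le {K M d : ℕ} (hd : 0 < d) (x : Fin K → ℕ) (i : Fin K)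
    (hi : Nat.Coprime (x i) d) :
    ((univ : Finset (Fin K → Fin M)).filter (fun v => d ∣ ∑ j, (v j : ℕ) * x j)).card ≤
      (M / d + 1) * M ^ (K - 1) := by
  classical
  set s := (univ : Finset (Fin K → Fin M)).filter (fun v => d ∣ ∑ j, (v j : ℕ) * x j) with hs
  set f : (Fin K → Fin M) → ({j : Fin K // j ≠ i} → Fin M) := fun v j => v j with hf
  have h1 := Finset.card_le_mul_card_image (f := f) s (M / d + 1) (by
    intro u _
    have hinj : Set.InjOn (fun v : Fin K → Fin M => v i) (s.filter (fun v => f v = u)) := by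
      intro v hv w hw hvw
      have hv2 := (mem_filter.1 (mem_coe.1 hv)).2
      have hw2 := (mem_filter.1 (mem_coe.1 hw)).2
      funext j
      by_cases hj : j = i
      · rw [hj]; exact hvw
      · have := congrFun (hv2.trans hw2.symm) ⟨j, hj⟩
        exact this
    rw [← Finset.card_image_of_injOn hinj]
    apply card_class_le M hd
    intro a ha b hb
    rw [mem_image] at ha hb
    obtain ⟨v, hv, rfl⟩ := ha
    obtain ⟨w, hw, rfl⟩ := hb
    rw [mem_filter] at hv hw
    have hv1 : d ∣ ∑ j, (v j : ℕ) * x j := (mem_filter.1 hv.1).2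
    have hw1 : d ∣ ∑ j, (w j : ℕ) * x j := (mem_filter.1 hw.1).2
    have hrest : ∑ j ∈ univ.erase i, (v j : ℕ) * x j = ∑ j ∈ univ.erase i, (w j : ℕ) * x j := by
      apply Finset.sum_congr rfl
      intro j hj
      have hj' : j ≠ i := (mem_erase.1 hj).1
      have := congrFun (hv.2.trans hw.2.symm) ⟨j, hj'⟩
      have h' : v j = w j := this
      rw [h']
    rw [← Finset.add_sum_erase univ (fun j => (v j : ℕ) * x j) (mem_univ i)] at hv1
    rw [← Finset.add_sum_erase univ (fun j => (w j : ℕ) * x j) (mem_univ i), ← hrest] at hw1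
    have h3 : (v i : ℕ) * x i + ∑ j ∈ univ.erase i, (v j : ℕ) * x j ≡
        (w i : ℕ) * x i + ∑ j ∈ univ.erase i, (v j : ℕ) * x j [MOD d] :=
      ((Nat.modEq_zero_iff_dvd).2 hv1).trans ((Nat.modEq_zero_iff_dvd).2 hw1).symm
    have h4 := Nat.ModEq.add_right_cancel' _ h3
    exact Nat.ModEq.cancel_right_of_coprime (by rw [Nat.gcd_comm]; exact hi) h4)
  refine h1.trans (Nat.mul_le_mul_left _ ?_)
  refine (Finset.card_le_univ _).trans ?_
  rw [Fintype.card_fun, Fintype.card_fin]
  apply le_of_eq
  congr 1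
  rw [Fintype.card_subtype_compl, Fintype.card_fin]
  simp

/-- a constant -/
noncomputable def mang (M : ℕ) : ℝ := ∑ d ∈ Icc 1 M, ArithmeticFunction.vonMangoldt d / d

theorem mang_nonneg (M : ℕ) : 0 ≤ mang M :=
  Finset.sum_nonneg fun _ _ => div_nonneg ArithmeticFunction.vonMangoldt_nonneg (Nat.cast_nonneg _)

/-- mean of the logarithm of the greatest common divisor -/
theorem sum_log_gcd_le {K M h : ℕ} (hM : 0 < M) (hh : h ≠ 0) (x : Fin K → ℕ)
    (hx : ∀ q, q.Prime → q ∣ h → ∃ i, ¬ q ∣ x i) :
    ∑ v : Fin K → Fin M, Real.log (Nat.gcd h (∑ j, (v j : ℕ) * x j)) ≤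
      (M : ℝ) ^ K * (mang M + 2 * Real.log h / M) := by
  classical
  have hMr : (0 : ℝ) < M := by exact_mod_cast hM
  have e1 : ∀ v : Fin K → Fin M, Real.log (Nat.gcd h (∑ j, (v j : ℕ) * x j)) =
      ∑ d ∈ h.divisors, if d ∣ ∑ j, (v j : ℕ) * x j then ArithmeticFunction.vonMangoldt d
        else 0 := by
    intro v
    rw [← ArithmeticFunction.vonMangoldt_sum, ← Finset.sum_filter]
    apply Finset.sum_congr _ fun _ _ => rfl
    ext d
    simp only [Nat.mem_divisors, mem_filter, Nat.dvd_gcd_iff]
    have : Nat.gcd h (∑ j, (v j : ℕ) * x j) ≠ 0 := Nat.gcd_ne_zero_left hh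
    tauto
  simp only [e1]
  rw [Finset.sum_comm]
  have e2 : ∀ d ∈ h.divisors, (∑ v : Fin K → Fin M, if d ∣ ∑ j, (v j : ℕ) * x j then
      ArithmeticFunction.vonMangoldt d else 0) ≤
      (M : ℝ) ^ K * (ArithmeticFunction.vonMangoldt d / d + ArithmeticFunction.vonMangoldt d / M) := by
    intro d hd
    rw [← Finset.sum_filter, Finset.sum_const, nsmul_eq_mul]
    have hd0 : 0 < d := Nat.pos_of_mem_divisors hd
    have hdr : (0 : ℝ) < d := by exact_mod_cast hd0
    by_cases hL : ArithmeticFunction.vonMangoldt d = 0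
    · rw [hL]; simp
    · have hpp : IsPrimePow d := ArithmeticFunction.vonMangoldt_ne_zero_iff.1 hL
      obtain ⟨q, k, hq, hk, rfl⟩ := hpp
      have hq' : q.Prime := hq.nat_prime
      have hqh : q ∣ h := (dvd_pow_self q hk.ne').trans (Nat.dvd_of_mem_divisors hd)
      obtain ⟨i, hi⟩ := hx q hq' hqh
      have hcop : Nat.Coprime (x i) (q ^ k) :=
        ((Nat.coprime_comm.1 ((Nat.Prime.coprime_iff_not_dvd hq').2 hi))).pow_right k
      have hc := card_dvd_le (M := M) hd0 x i hcop
      have hK : 0 < K := i.pos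
      have hc2 : (((univ : Finset (Fin K → Fin M)).filter
          (fun v => q ^ k ∣ ∑ j, (v j : ℕ) * x j)).card : ℝ) ≤
          (M : ℝ) ^ K * (1 / ((q ^ k : ℕ) : ℝ) + 1 / M) := by
        calc (((univ : Finset (Fin K → Fin M)).filter
            (fun v => q ^ k ∣ ∑ j, (v j : ℕ) * x j)).card : ℝ)
            ≤ (((M / (q ^ k) + 1) * M ^ (K - 1) : ℕ) : ℝ) := by exact_mod_cast hc
          _ ≤ ((M : ℝ) / ((q ^ k : ℕ) : ℝ) + 1) * (M : ℝ) ^ (K - 1) := by
              push_cast
              apply mul_le_mul_of_nonneg_right _ (by positivity)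
              have := @Nat.cast_div_le ℝ _ _ _ M (q ^ k)
              push_cast at this
              linarith
          _ = (M : ℝ) ^ K * (1 / ((q ^ k : ℕ) : ℝ) + 1 / M) := by
              obtain ⟨K', rfl⟩ : ∃ K', K = K' + 1 := ⟨K - 1, by omega⟩
              rw [Nat.add_sub_cancel, pow_succ]
              field_simp
      have hv : 0 ≤ ArithmeticFunction.vonMangoldt (q ^ k) :=
        ArithmeticFunction.vonMangoldt_nonneg
      calc _ ≤ (M : ℝ) ^ K * (1 / ((q ^ k : ℕ) : ℝ) + 1 / M) *
            ArithmeticFunction.vonMangoldt (q ^ k) := mul_le_mul_of_nonneg_right hc2 hv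
        _ = _ := by ring
  refine (Finset.sum_le_sum e2).trans ?_
  rw [← Finset.mul_sum]
  apply mul_le_mul_of_nonneg_left _ (by positivity)
  rw [Finset.sum_add_distrib]
  have e3 : ∑ d ∈ h.divisors, ArithmeticFunction.vonMangoldt d / (M : ℝ) = Real.log h / M := by
    rw [← Finset.sum_div, ArithmeticFunction.vonMangoldt_sum]
  have e4 : ∑ d ∈ h.divisors, ArithmeticFunction.vonMangoldt d / (d : ℝ) ≤
      mang M + Real.log h / M := by
    rw [← e3, ← Finset.sum_filter_add_sum_filter_not h.divisors (fun d => d ≤ M)]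
    apply add_le_add
    · apply Finset.sum_le_sum_of_subset_of_nonneg
      · intro d hd
        rw [mem_filter] at hd
        exact mem_Icc.2 ⟨Nat.pos_of_mem_divisors hd.1, hd.2⟩
      · intro d _ _
        exact div_nonneg ArithmeticFunction.vonMangoldt_nonneg (Nat.cast_nonneg _)
    · refine (Finset.sum_le_sum (g := fun d => ArithmeticFunction.vonMangoldt d / (M : ℝ))
        fun d hd => ?_).trans (Finset.sum_le_sum_of_subset_of_nonneg (Finset.filter_subset _ _)
          fun d _ _ => div_nonneg ArithmeticFunction.vonMangoldt_nonneg hMr.le)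
      rw [mem_filter, not_le] at hd
      exact div_le_div_of_nonneg_left ArithmeticFunction.vonMangoldt_nonneg hMr
        (by exact_mod_cast hd.2.le)
  rw [e3]
  have : 2 * Real.log h / M = Real.log h / M + Real.log h / M := by ring
  linarith

/-- logarithms with respect to a generator of the group generated by the `a i` -/
theorem exists_logs {G : Type*} [CommGroup G] [Finite G] [IsCyclic G] {K : ℕ} (a : Fin K → G) :
    ∃ x : Fin K → ℕ,
      (∀ q, q.Prime → q ∣ Nat.card (Subgroup.closure (Set.range a)) → ∃ i, ¬ q ∣ x i) ∧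
      ∀ v : Fin K → ℕ, orderOf (∏ i, a i ^ v i) *
        Nat.gcd (Nat.card (Subgroup.closure (Set.range a))) (∑ i, v i * x i) =
          Nat.card (Subgroup.closure (Set.range a)) := by
  set H := Subgroup.closure (Set.range a) with hH
  obtain ⟨g, hg⟩ := IsCyclic.exists_generator (α := H)
  have hgord : orderOf (g : G) = Nat.card H := by
    rw [Subgroup.orderOf_coe]; exact orderOf_eq_card_of_forall_mem_zpowers hg
  have hmem : ∀ i, a i ∈ H := fun i => Subgroup.subset_closure ⟨i, rfl⟩
  have hx : ∀ i, ∃ n : ℕ, (g : G) ^ n = a i := by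
    intro i
    have h1 := hg ⟨a i, hmem i⟩
    rw [← mem_powers_iff_mem_zpowers] at h1
    obtain ⟨n, hn⟩ := h1
    refine ⟨n, ?_⟩
    have h2 := congrArg Subtype.val hn
    simpa using h2
  choose x hx using hx
  refine ⟨x, ?_, ?_⟩
  · intro q hq hqH
    by_contra hcon
    push Not at hcon
    have h1 : ∀ y ∈ H, y ^ (Nat.card H / q) = 1 := by
      have hle : H ≤ (powMonoidHom (Nat.card H / q) : G →* G).ker := by
        rw [hH, Subgroup.closure_le]
        rintro _ ⟨i, rfl⟩
        rw [SetLike.mem_coe, MonoidHom.mem_ker, powMonoidHom_apply, ← hx i, ← pow_mul]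
        obtain ⟨c, hc⟩ := hcon i
        obtain ⟨e, he⟩ := hqH
        rw [← hH, hc, he, Nat.mul_div_cancel_left _ hq.pos, mul_assoc, mul_comm c e, ← mul_assoc,
          ← he, ← hgord, pow_mul, pow_orderOf_eq_one, one_pow]
      intro y hy
      exact hle hy
    have h2 := card_dvd_of_forall h1
    have h3 := Nat.le_of_dvd (Nat.div_pos (Nat.le_of_dvd Nat.card_pos hqH) hq.pos) h2
    have h4 : Nat.card H / q < Nat.card H := Nat.div_lt_self Nat.card_pos hq.one_lt
    omega
  · intro v
    have e1 : ∏ i, a i ^ v i = (g : G) ^ (∑ i, v i * x i) := by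
      rw [← Finset.prod_pow_eq_pow_sum]
      apply Finset.prod_congr rfl
      intro i _
      rw [← hx i, ← pow_mul, mul_comm (x i)]
    rw [e1, orderOf_pow, hgord]
    exact Nat.div_mul_cancel (Nat.gcd_dvd_left _ _)

/-- If many products of powers have order at most `y` then the generated group is small. -/
theorem log_card_le {G : Type*} [CommGroup G] [Finite G] [IsCyclic G] {K M : ℕ} (hM : 0 < M)
    (a : Fin K → G) {y η : ℝ} (hη : 0 ≤ η) (hy : 1 ≤ y)
    (h : η * (M : ℝ) ^ K ≤ (((univ : Finset (Fin K → Fin M)).filter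
      (fun v => (orderOf (∏ i, a i ^ (v i : ℕ)) : ℝ) ≤ y)).card : ℝ)) :
    (η - 2 / M) * Real.log (Nat.card (Subgroup.closure (Set.range a))) ≤
      η * Real.log y + mang M := by
  classical
  obtain ⟨x, hx1, hx2⟩ := exists_logs a
  set n := Nat.card (Subgroup.closure (Set.range a)) with hn
  have hn0 : n ≠ 0 := Nat.card_pos.ne'
  have hnr : (0 : ℝ) < n := by exact_mod_cast Nat.pos_of_ne_zero hn0
  have hMr : (0 : ℝ) < M := by exact_mod_cast hM
  have hsum := sum_log_gcd_le hM hn0 x hx1
  have hlogy : 0 ≤ Real.log y := Real.log_nonneg hy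
  have hlogn : 0 ≤ Real.log n := Real.log_nonneg (by exact_mod_cast Nat.pos_of_ne_zero hn0)
  set bad := (univ : Finset (Fin K → Fin M)).filter
      (fun v => (orderOf (∏ i, a i ^ (v i : ℕ)) : ℝ) ≤ y) with hbad
  have hMK : (0 : ℝ) < (M : ℝ) ^ K := by positivity
  -- the main inequality
  have hmain : (bad.card : ℝ) * (Real.log n - Real.log y) ≤
      (M : ℝ) ^ K * (mang M + 2 * Real.log n / M) := by
    refine le_trans ?_ hsum
    calc (bad.card : ℝ) * (Real.log n - Real.log y)
        = ∑ _v ∈ bad, (Real.log n - Real.log y) := by rw [Finset.sum_const, nsmul_eq_mul]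
      _ ≤ ∑ v ∈ bad, Real.log (Nat.gcd n (∑ j, (v j : ℕ) * x j)) := by
          apply Finset.sum_le_sum
          intro v hv
          rw [hbad, mem_filter] at hv
          have h2 := hx2 (fun i => (v i : ℕ))
          have h3 : Real.log n = Real.log (orderOf (∏ i, a i ^ (v i : ℕ))) +
              Real.log (Nat.gcd n (∑ j, (v j : ℕ) * x j)) := by
            rw [← Real.log_mul, ← Nat.cast_mul, h2]
            · exact_mod_cast (orderOf_pos _).ne'
            · exact_mod_cast Nat.gcd_ne_zero_left hn0
          have h4 : Real.log (orderOf (∏ i, a i ^ (v i : ℕ))) ≤ Real.log y := by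
            apply Real.log_le_log _ hv.2
            exact_mod_cast orderOf_pos _
          linarith
      _ ≤ ∑ v : Fin K → Fin M, Real.log (Nat.gcd n (∑ j, (v j : ℕ) * x j)) := by
          apply Finset.sum_le_sum_of_subset_of_nonneg (Finset.subset_univ _)
          intro v _ _
          apply Real.log_nonneg
          have : 0 < Nat.gcd n (∑ j, (v j : ℕ) * x j) := Nat.gcd_pos_of_pos_left _
            (Nat.pos_of_ne_zero hn0)
          exact_mod_cast this
  have hkey : η * (Real.log n - Real.log y) ≤ mang M + 2 * Real.log n / M := by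
    by_cases hc : Real.log n - Real.log y ≤ 0
    · have h1 : η * (Real.log n - Real.log y) ≤ 0 := mul_nonpos_of_nonneg_of_nonpos hη hc
      have h2 : 0 ≤ mang M + 2 * Real.log n / M := by
        have := mang_nonneg M
        positivity
      linarith
    · push Not at hc
      have h1 : η * (M : ℝ) ^ K * (Real.log n - Real.log y) ≤
          (M : ℝ) ^ K * (mang M + 2 * Real.log n / M) :=
        (mul_le_mul_of_nonneg_right h hc.le).trans hmain
      have h2 : (M : ℝ) ^ K * (η * (Real.log n - Real.log y)) ≤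
          (M : ℝ) ^ K * (mang M + 2 * Real.log n / M) := by
        calc _ = η * (M : ℝ) ^ K * (Real.log n - Real.log y) := by ring
          _ ≤ _ := h1
      exact le_of_mul_le_mul_left h2 hMK
  have e : (η - 2 / M) * Real.log n = η * Real.log n - 2 * Real.log n / M := by ring
  rw [e]
  linarith

end Pool.Agent.PrimRoot
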