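import Pool.Agent.MP_18a8a6_lc.Quant

/-!
Candidates built on an element of order equal to the smooth part of the group order.
-/

set_option autoImplicit false

namespace Pool.Agent.PrimRoot

open Finset

theorem smoothPart_dvd (R N : ℕ) (hN : N ≠ 0) : smoothPart R N ∣ N := by
  conv_rhs => rw [← Nat.prod_factorization_pow_eq_self hN]
  unfold smoothPart Finsupp.prod
  rw [Nat.support_factorization]
  exact Finset.prod_dvd_prod_of_subset _ _ _ (Finset.filter_subset _ _)

theorem not_dvd_div_smoothPart {R N q : ℕ} (hN : N ≠ 0) (hq : q.Prime) (hqR : q ≤ R) :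
    ¬ q ∣ N / smoothPart R N := by
  intro h
  by_cases hqN : q ∣ N
  · have hmem : q ∈ smallPrimes R N := (mem_smallPrimes R).2 ⟨⟨hq, hqN, hN⟩, hqR⟩
    obtain ⟨c, hc⟩ := dvd_smoothPart R hmem
    obtain ⟨d, hd⟩ := h
    have h1 : smoothPart R N * (N / smoothPart R N) = N :=
      Nat.mul_div_cancel' (smoothPart_dvd R N hN)
    have h2 : q ^ (N.factorization q + 1) ∣ N := by
      conv_rhs => rw [← h1, hd, hc]
      exact ⟨c * d, by ring⟩
    exact Nat.pow_succ_factorization_not_dvd hN hq h2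
  · exact hqN (h.trans (Nat.div_dvd_of_dvd (smoothPart_dvd R N hN)))

theorem prime_pow_dvd_of {o h q : ℕ} (hq : q.Prime) (hoh : o ∣ h)
    (hno : ¬ o ∣ h / q) {k : ℕ} (hk : q ^ k ∣ h) : q ^ k ∣ o := by
  obtain ⟨e, he⟩ := hoh
  have hqe : ¬ q ∣ e := by
    rintro ⟨f, hf⟩
    apply hno
    rw [he, hf, show o * (q * f) = q * (o * f) by ring, Nat.mul_div_cancel_left _ hq.pos]
    exact Dvd.intro f rfl
  rw [he] at hk
  exact (Nat.Coprime.pow_left k ((Nat.Prime.coprime_iff_not_dvd hq).2 hqe)).dvd_of_dvd_mul_right hk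

section
variable {G : Type*} [CommGroup G] [Finite G] [IsCyclic G] (a : ℕ → G) (B T : ℕ)

/-- For `ζ` of order the `T`-smooth part `m` of the group order, one of the `ζ * w_t ^ m`,
`1 ≤ t ≤ T`, has order divisible by both `m` and `card H`. -/
theorem core_smooth (hT : B * Nat.log 2 (Nat.card G) < T) {ζ : G}
    (hζ : orderOf ζ = smoothPart T (Nat.card G)) :
    ∃ t ∈ Icc 1 T, smoothPart T (Nat.card G) ∣
        orderOf (ζ * wElt a B t ^ smoothPart T (Nat.card G)) ∧
      Nat.card (genSub a B) ∣ orderOf (ζ * wElt a B t ^ smoothPart T (Nat.card G)) := by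
  obtain ⟨t, ht, hgood⟩ := exists_good a B T hT
  refine ⟨t, ht, ?_⟩
  set H := genSub a B with hH
  set N := Nat.card G with hN
  set m := smoothPart T N with hm
  set w := wElt a B t with hw
  have hNne : N ≠ 0 := card_ne_zero'
  have hwH : w ∈ H := wElt_mem a B t
  have hHN : Nat.card H ∣ N := Subgroup.card_subgroup_dvd_card H
  have hmN : m * (N / m) = N := Nat.mul_div_cancel' (smoothPart_dvd T N hNne)
  have hNm0 : N / m ≠ 0 := by
    intro h0
    rw [h0] at hmN
    exact hNne (by simpa using hmN.symm)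
  have hm0 : m ≠ 0 := by
    intro h0
    rw [h0] at hmN
    exact hNne (by simpa using hmN.symm)
  have how : orderOf (w ^ m) ∣ N / m := by
    apply orderOf_dvd_of_pow_eq_one
    rw [← pow_mul, hmN, hN, pow_card_eq_one']
  have hcop : Nat.Coprime m (N / m) := by
    apply Nat.Coprime.symm
    rw [hm]
    unfold smoothPart
    apply Nat.Coprime.prod_right
    intro r hr
    have hr1 := (mem_smallPrimes T).1 hr
    apply Nat.Coprime.pow_right
    apply Nat.Coprime.symm
    rw [Nat.Prime.coprime_iff_not_dvd hr1.1.1]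
    exact not_dvd_div_smoothPart hNne hr1.1.1 hr1.2
  have hcop2 : Nat.Coprime (orderOf ζ) (orderOf (w ^ m)) := by
    rw [hζ]
    exact hcop.coprime_dvd_right how
  have hord : orderOf (ζ * w ^ m) = m * orderOf (w ^ m) := by
    rw [(Commute.all ζ (w ^ m)).orderOf_mul_eq_mul_orderOf_of_coprime hcop2, hζ]
  rw [hord]
  refine ⟨Dvd.intro _ rfl, ?_⟩
  rw [Nat.dvd_iff_prime_pow_dvd_dvd]
  intro q k hq hk
  rcases Nat.eq_zero_or_pos k with hk0 | hk0
  · rw [hk0, pow_zero]; exact one_dvd _
  have hqH : q ∣ Nat.card H := (dvd_pow_self q (by omega)).trans hk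
  rcases le_or_gt q T with hqT | hqT
  · -- small prime
    have hqS : q ∈ smallPrimes T N := (mem_smallPrimes T).2 ⟨⟨hq, hqH.trans hHN, hNne⟩, hqT⟩
    have h1 : k ≤ N.factorization q := (hq.pow_dvd_iff_le_factorization hNne).1 (hk.trans hHN)
    exact ((pow_dvd_pow q h1).trans (dvd_smoothPart T hqS)).trans (Dvd.intro _ rfl)
  · -- large prime
    have h1 : q ^ k ∣ orderOf w := by
      apply prime_pow_dvd_of hq (orderOf_dvd_of_pow_eq_one (pow_card_sub hwH)) _ hk
      intro hd
      exact hgood q hq hqT hqH (orderOf_dvd_iff_pow_eq_one.1 hd)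
    have h2 : orderOf w ∣ m * orderOf (w ^ m) := by
      apply orderOf_dvd_of_pow_eq_one
      rw [pow_mul, pow_orderOf_eq_one]
    exact h1.trans h2

end

/-- If `p > 3` is a prime with `3 ∤ p - 1` then `-3` is not a square modulo `p`. -/
theorem not_isSquare_neg_three (p : ℕ) [Fact p.Prime] (hp : 3 < p) (h3 : ¬ 3 ∣ p - 1) :
    ¬ IsSquare (-3 : ZMod p) := by
  rintro ⟨s, hs⟩
  have h2 : (2 : ZMod p) ≠ 0 := by
    intro h
    have h' : ((2 : ℕ) : ZMod p) = 0 := by exact_mod_cast h
    rw [ZMod.natCast_eq_zero_iff] at h'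
    have := Nat.le_of_dvd (by norm_num) h'
    omega
  have h30 : (3 : ZMod p) ≠ 0 := by
    intro h
    have h' : ((3 : ℕ) : ZMod p) = 0 := by exact_mod_cast h
    rw [ZMod.natCast_eq_zero_iff] at h'
    have := Nat.le_of_dvd (by norm_num) h'
    omega
  set ω : ZMod p := (-1 + s) / 2 with hω
  have hω2 : 2 * ω = -1 + s := by rw [hω]; field_simp
  have hq : ω ^ 2 + ω + 1 = 0 := by
    have h4 : (2 * ω) ^ 2 + 2 * (2 * ω) + 4 = 0 := by
      rw [hω2]
      linear_combination -hs
    have h5 : (2 : ZMod p) ^ 2 * (ω ^ 2 + ω + 1) = 0 := by linear_combination h4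
    exact (mul_eq_zero.1 h5).resolve_left (pow_ne_zero 2 h2)
  have hcube : ω ^ 3 = 1 := by linear_combination (ω - 1) * hq
  have hne : ω ≠ 1 := by
    intro h1
    rw [h1] at hq
    apply h30
    linear_combination hq
  have hne0 : ω ≠ 0 := by
    intro h0
    rw [h0] at hq
    simp at hq
  have hord : orderOf ω = 3 := orderOf_eq_prime hcube hne
  have hdvd : orderOf ω ∣ p - 1 := by
    apply orderOf_dvd_of_pow_eq_one
    exact ZMod.pow_card_sub_one_eq_one hne0
  rw [hord] at hdvd
  exact h3 hdvd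

end Pool.Agent.PrimRoot
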