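import Pool.Agent.MP_18a8a6_lc.FixedOrders
import Pool.Agent.MP_18a8a6_lc.Smooth

/-!
The order of `u * w ^ s`, where `s` is the smooth part of the group order, `u` is the product of
maximal `q`-components of the given generators and `w` is arbitrary.
-/

set_option autoImplicit false

namespace Pool.Agent.PrimRoot

open Finset

section

variable {G : Type*} [CommGroup G] [Finite G] [IsCyclic G] (a : ℕ → G) (B R : ℕ)

/-- if the `a i` generate the group then `uElt` has order the smooth part of the group order -/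
theorem orderOf_uElt {ι : ℕ → ℕ} (hadm : Adm a B R (Nat.card G) ι) (hgen : genSub a B = ⊤) :
    orderOf (uElt a R (Nat.card G) ι) = smoothPart R (Nat.card G) := by
  set N := Nat.card G with hN
  have hNne : N ≠ 0 := card_ne_zero'
  set s := smoothPart R N with hs
  have hsN : s ∣ N := smoothPart_dvd R N hNne
  have hs0 : 0 < s := Nat.pos_of_dvd_of_pos hsN (Nat.pos_of_ne_zero hNne)
  have htop : Nat.card (genSub a B) = N := by rw [hgen, Subgroup.card_top]
  apply orderOf_eq_of_pow_and_pow_div_prime hs0
  · unfold uElt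
    rw [← Finset.prod_pow]
    apply Finset.prod_eq_one
    intro q hq
    obtain ⟨c, hc⟩ := dvd_smoothPart R hq
    rw [← hs] at hc
    rw [hc, pow_mul, pow_cofac_pow, one_pow]
  · intro q hq hqs hone
    have hqN : q ∣ N := hqs.trans hsN
    have hqR : q ≤ R := by
      by_contra hcon
      push Not at hcon
      have h1 := coprime_smoothPart (N := N) R hq hcon
      rw [Nat.Prime.coprime_iff_not_dvd hq] at h1
      exact h1 hqs
    have hqS : q ∈ smallPrimes R N := (mem_smallPrimes R).2 ⟨⟨hq, hqN, hNne⟩, hqR⟩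
    have hqH : q ∣ Nat.card (genSub a B) := by rw [htop]; exact hqN
    have hNq : (uElt a R N ι) ^ (N / q) = 1 := by
      obtain ⟨c, hc⟩ := hsN
      obtain ⟨m, hm⟩ := hqs
      have h1 : N / q = (s / q) * c := by
        rw [hc, hm, Nat.mul_div_cancel_left _ hq.pos, mul_assoc, Nat.mul_div_cancel_left _ hq.pos]
      rw [h1, pow_mul, hone, one_pow]
    apply qpart_ne_one a B R hadm hqS hqH
    rw [htop]
    rw [← hNq]
    unfold uElt
    rw [← Finset.prod_pow, ← Finset.mul_prod_erase _ _ hqS]
    conv_lhs => rw [← mul_one ((a (ι q) ^ cofac N q) ^ (N / q))]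
    congr 1
    symm
    apply Finset.prod_eq_one
    intro r hr
    rw [Finset.mem_erase] at hr
    have h2 := qpart_pow_div (H := genSub a B) (x := a (ι r)) (q := r) (r := q)
      (a_mem a B (hadm r hr.2).1) (smallPrimes_prime R hr.2) hq hqH hr.1
    rw [htop] at h2
    exact h2

/-- the order of the candidate -/
theorem orderOf_cand' {ζ w : G} (hζ : orderOf ζ = smoothPart R (Nat.card G)) :
    smoothPart R (Nat.card G) ∣ orderOf (ζ * w ^ smoothPart R (Nat.card G)) ∧
      orderOf w ≤ orderOf (ζ * w ^ smoothPart R (Nat.card G)) := by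
  set N := Nat.card G with hN
  set m := smoothPart R N with hm
  have hNne : N ≠ 0 := card_ne_zero'
  have hmN : m * (N / m) = N := Nat.mul_div_cancel' (smoothPart_dvd R N hNne)
  have hm0 : m ≠ 0 := by
    intro h0
    rw [h0] at hmN
    exact hNne (by simpa using hmN.symm)
  have how : orderOf (w ^ m) ∣ N / m := by
    apply orderOf_dvd_of_pow_eq_one
    rw [← pow_mul, hmN, hN, pow_card_eq_one']
  have hcop : Nat.Coprime m (N / m) := by
    apply Nat.Coprime.symm
    rw [hm]
    unfold smoothPart
    apply Nat.Coprime.prod_right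
    intro r hr
    have hr1 := (mem_smallPrimes R).1 hr
    apply Nat.Coprime.pow_right
    apply Nat.Coprime.symm
    rw [Nat.Prime.coprime_iff_not_dvd hr1.1.1]
    exact not_dvd_div_smoothPart hNne hr1.1.1 hr1.2
  have hcop2 : Nat.Coprime (orderOf ζ) (orderOf (w ^ m)) := by
    rw [hζ]
    exact hcop.coprime_dvd_right how
  have hord : orderOf (ζ * w ^ m) = m * orderOf (w ^ m) := by
    rw [(Commute.all ζ (w ^ m)).orderOf_mul_eq_mul_orderOf_of_coprime hcop2, hζ]
  rw [hord]
  refine ⟨Dvd.intro _ rfl, ?_⟩
  apply Nat.le_of_dvd (Nat.mul_pos (Nat.pos_of_ne_zero hm0) (orderOf_pos _))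
  apply orderOf_dvd_of_pow_eq_one
  rw [pow_mul, pow_orderOf_eq_one]

end

end Pool.Agent.PrimRoot
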