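import Pool.Agent.MP_18a8a6_lc.Fixed

/-!
The number of primes `p` for which the first `K` primes generate a subgroup of order at most `H`
of the group of units modulo `p` is `O(H^(1+1/K))`.
-/

set_option autoImplicit false

namespace Pool.Agent.PrimRoot

open Finset

/-- the `i`-th prime: `2, 3, 5, ...` for `i = 0, 1, 2, ...` -/
noncomputable def pr (i : ℕ) : ℕ := Nat.nth Nat.Prime i

theorem pr_prime (i : ℕ) : (pr i).Prime := Nat.nth_mem_of_infinite Nat.infinite_setOfPred_prime i

theorem pr_injective : Function.Injective pr := Nat.nth_injective Nat.infinite_setOfPred_prime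

/-- product of powers of the first `K` primes -/
noncomputable def prodPr {K : ℕ} (e : Fin K → ℕ) : ℕ := ∏ i : Fin K, pr i ^ e i

theorem prodPr_pos {K : ℕ} (e : Fin K → ℕ) : 0 < prodPr e :=
  Finset.prod_pos fun i _ => Nat.pow_pos (pr_prime i).pos

theorem factorization_prodPr {K : ℕ} (e : Fin K → ℕ) (j : Fin K) :
    (prodPr e).factorization (pr j) = e j := by
  unfold prodPr
  rw [Nat.factorization_prod (fun (i : Fin K) _ => (Nat.pow_pos (pr_prime i).pos).ne'),
    Finsupp.finsetSum_apply]
  rw [Finset.sum_eq_single j]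
  · rw [Nat.Prime.factorization_pow (pr_prime j), Finsupp.single_eq_same]
  · intro i _ hij
    rw [Nat.Prime.factorization_pow (pr_prime i), Finsupp.single_eq_of_ne]
    intro h
    exact hij (Fin.ext (pr_injective h).symm)
  · intro h; exact absurd (mem_univ j) h

theorem prodPr_injective {K : ℕ} : Function.Injective (prodPr : (Fin K → ℕ) → ℕ) := by
  intro e f h
  funext j
  rw [← factorization_prodPr e j, ← factorization_prodPr f j, h]

theorem prodPr_le {K E : ℕ} {e : Fin K → ℕ} (he : ∀ i, e i ≤ E) :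
    prodPr e ≤ (∏ i : Fin K, pr i) ^ E := by
  unfold prodPr
  rw [← Finset.prod_pow]
  exact Finset.prod_le_prod' fun (i : Fin K) _ => Nat.pow_le_pow_right (pr_prime i).pos (he i)

/-- the subgroup of the units modulo `p` generated by the first `K` primes -/
noncomputable def prGroup (K p : ℕ) [Fact p.Prime] : Subgroup (ZMod p)ˣ :=
  Subgroup.closure (Set.range fun i : Fin K => res p (pr i))

theorem coe_res {p i : ℕ} [Fact p.Prime] (h : ¬ p ∣ i) : ((res p i : (ZMod p)ˣ) : ZMod p) = i := by
  unfold res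
  have h' : (i : ZMod p) ≠ 0 := by
    rwa [Ne, ZMod.natCast_eq_zero_iff]
  rw [dif_pos h']
  rfl

/-- number of integer vectors in a box, differences of products -/
noncomputable def diffPr {K : ℕ} (g : Fin K → ℤ) : ℤ :=
  (prodPr (fun i => (g i).toNat) : ℤ) - (prodPr (fun i => (-g i).toNat) : ℤ)

theorem diffPr_ne_zero {K : ℕ} {g : Fin K → ℤ} (hg : g ≠ 0) : diffPr g ≠ 0 := by
  intro h
  apply hg
  unfold diffPr at h
  have h1 : prodPr (fun i => (g i).toNat) = prodPr (fun i => (-g i).toNat) := by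
    have := sub_eq_zero.1 h
    exact_mod_cast this
  have h2 := prodPr_injective h1
  funext i
  have h3 : (g i).toNat = (-g i).toNat := congrFun h2 i
  show g i = 0
  omega

theorem natAbs_diffPr_le {K E : ℕ} {g : Fin K → ℤ} (hg : ∀ i, g i ∈ Icc (-(E : ℤ)) E) :
    (diffPr g).natAbs ≤ (∏ i : Fin K, pr i) ^ E := by
  have h1 : prodPr (fun i => (g i).toNat) ≤ (∏ i : Fin K, pr i) ^ E := by
    apply prodPr_le
    intro i
    have := mem_Icc.1 (hg i)
    omega
  have h2 : prodPr (fun i => (-g i).toNat) ≤ (∏ i : Fin K, pr i) ^ E := by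
    apply prodPr_le
    intro i
    have := mem_Icc.1 (hg i)
    omega
  have h3 := prodPr_pos (fun i => (g i).toNat)
  have h4 := prodPr_pos (fun i => (-g i).toNat)
  unfold diffPr
  omega

/-- the finite set of the primes dividing one of the differences -/
noncomputable def badPr (K E : ℕ) : Finset ℕ :=
  ((Fintype.piFinset (fun _ : Fin K => Icc (-(E : ℤ)) E)).filter (fun g => g ≠ 0)).biUnion
    (fun g => (diffPr g).natAbs.primeFactors)

theorem card_badPr_le (K E : ℕ) :
    (badPr K E).card ≤ (2 * E + 1) ^ K * (E * (Nat.log 2 (∏ i : Fin K, pr i) + 1)) := by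
  classical
  unfold badPr
  refine (Finset.card_biUnion_le_card_mul _ _ (E * (Nat.log 2 (∏ i : Fin K, pr i) + 1)) ?_).trans ?_
  · intro g hg
    rw [mem_filter, Fintype.mem_piFinset] at hg
    have hne : (diffPr g).natAbs ≠ 0 := Int.natAbs_ne_zero.2 (diffPr_ne_zero hg.2)
    refine (card_primeFactors_le _ hne).trans ?_
    have h1 : (∏ i : Fin K, pr i) < 2 ^ (Nat.log 2 (∏ i : Fin K, pr i) + 1) :=
      Nat.lt_pow_succ_log_self (by norm_num) _
    calc Nat.log 2 (diffPr g).natAbs ≤ Nat.log 2 ((∏ i : Fin K, pr i) ^ E) :=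
          Nat.log_mono_right (natAbs_diffPr_le hg.1)
      _ ≤ Nat.log 2 ((2 ^ (Nat.log 2 (∏ i : Fin K, pr i) + 1)) ^ E) :=
          Nat.log_mono_right (Nat.pow_le_pow_left h1.le _)
      _ = E * (Nat.log 2 (∏ i : Fin K, pr i) + 1) := by
          rw [← pow_mul, Nat.log_pow (by norm_num), mul_comm]
  · apply Nat.mul_le_mul_right
    refine (Finset.card_filter_le _ _).trans ?_
    rw [Fintype.card_piFinset]
    simp only [Int.card_Icc, Finset.prod_const, Finset.card_univ, Fintype.card_fin]
    apply Nat.pow_le_pow_left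
    omega

/-- if the group generated by the first `K` primes is small then `p` lies in `badPr` -/
theorem mem_badPr {K E p : ℕ} [hp : Fact p.Prime] (hpr : ∀ i : Fin K, ¬ p ∣ pr i)
    (hE : Nat.card (prGroup K p) < (E + 1) ^ K) : p ∈ badPr K E := by
  classical
  set a : Fin K → (ZMod p)ˣ := fun i => res p (pr i) with ha
  -- two products of powers coincide
  set F : (Fin K → Fin (E + 1)) → prGroup K p := fun e =>
    ⟨∏ i, a i ^ (e i : ℕ), Subgroup.prod_mem _ fun i _ =>
      Subgroup.pow_mem _ (Subgroup.subset_closure (Set.mem_range_self i)) _⟩ with hF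
  have hnotinj : ¬ Function.Injective F := by
    intro hinj
    have h1 := Nat.card_le_card_of_injective F hinj
    rw [Nat.card_eq_fintype_card (α := Fin K → Fin (E + 1)), Fintype.card_fun, Fintype.card_fin,
      Fintype.card_fin] at h1
    omega
  rw [Function.Injective] at hnotinj
  push Not at hnotinj
  obtain ⟨e, f, hef, hne⟩ := hnotinj
  have hprod : ∏ i, a i ^ (e i : ℕ) = ∏ i, a i ^ (f i : ℕ) := congrArg Subtype.val hef
  set g : Fin K → ℤ := fun i => (e i : ℤ) - (f i : ℤ) with hg
  unfold badPr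
  rw [mem_biUnion]
  refine ⟨g, ?_, ?_⟩
  · rw [mem_filter, Fintype.mem_piFinset]
    refine ⟨fun i => mem_Icc.2 ?_, ?_⟩
    · have h1 := (e i).2
      have h2 := (f i).2
      simp only [hg]
      omega
    · intro h0
      apply hne
      funext i
      have h1 := congrFun h0 i
      simp only [hg, Pi.zero_apply] at h1
      apply Fin.ext
      omega
  · have hne0 : diffPr g ≠ 0 := by
      apply diffPr_ne_zero
      intro h0
      apply hne
      funext i
      have h1 := congrFun h0 i
      simp only [hg, Pi.zero_apply] at h1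
      apply Fin.ext
      omega
    rw [Nat.mem_primeFactors]
    refine ⟨hp.out, ?_, Int.natAbs_ne_zero.2 hne0⟩
    -- cancel the common part
    have hcan : ∏ i, a i ^ (g i).toNat = ∏ i, a i ^ (-g i).toNat := by
      have h1 : ∏ i, a i ^ (e i : ℕ) =
          (∏ i, a i ^ (g i).toNat) * ∏ i, a i ^ (min (e i : ℕ) (f i)) := by
        rw [← Finset.prod_mul_distrib]
        apply Finset.prod_congr rfl
        intro i _
        rw [← pow_add]
        congr 1
        simp only [hg]
        omega
      have h2 : ∏ i, a i ^ (f i : ℕ) =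
          (∏ i, a i ^ (-g i).toNat) * ∏ i, a i ^ (min (e i : ℕ) (f i)) := by
        rw [← Finset.prod_mul_distrib]
        apply Finset.prod_congr rfl
        intro i _
        rw [← pow_add]
        congr 1
        simp only [hg]
        omega
      rw [h1, h2] at hprod
      exact mul_right_cancel hprod
    have hcoe : ∀ c : Fin K → ℕ, ((∏ i, a i ^ c i : (ZMod p)ˣ) : ZMod p) =
        ((prodPr c : ℕ) : ZMod p) := by
      intro c
      unfold prodPr
      push_cast
      apply Finset.prod_congr rfl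
      intro i _
      rw [ha]
      simp only
      rw [coe_res (hpr i)]
    have h3 : ((prodPr (fun i => (g i).toNat) : ℕ) : ZMod p) =
        ((prodPr (fun i => (-g i).toNat) : ℕ) : ZMod p) := by
      rw [← hcoe, ← hcoe, hcan]
    have h4 : ((diffPr g : ℤ) : ZMod p) = 0 := by
      unfold diffPr
      push_cast
      rw [h3, sub_self]
    rw [ZMod.intCast_zmod_eq_zero_iff_dvd] at h4
    exact Int.natCast_dvd.1 h4

/-- **Few primes with a small group.** -/
theorem card_small_group (K : ℕ) (hK : 1 ≤ K) : ∃ C : ℝ, 0 < C ∧ ∀ H : ℝ, 1 ≤ H →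
    ∃ S : Finset ℕ, (S.card : ℝ) ≤ C * H ^ (1 + 1 / (K : ℝ)) ∧
      ∀ (p : ℕ) [Fact p.Prime], (Nat.card (prGroup K p) : ℝ) ≤ H → p ∈ S := by
  classical
  obtain ⟨c, hc⟩ : ∃ c, c = Nat.log 2 (∏ i : Fin K, pr i) + 1 := ⟨_, rfl⟩
  refine ⟨3 ^ K * c + K, by positivity, fun H hH => ?_⟩
  have hKr : (0 : ℝ) < K := by exact_mod_cast hK
  have hH0 : 0 < H := by linarith
  obtain ⟨E, hE⟩ : ∃ E, E = ⌊H ^ (1 / (K : ℝ))⌋₊ := ⟨_, rfl⟩
  have hroot : (1 : ℝ) ≤ H ^ (1 / (K : ℝ)) := Real.one_le_rpow hH (by positivity)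
  have hE1 : (E : ℝ) ≤ H ^ (1 / (K : ℝ)) := by
    rw [hE]; exact Nat.floor_le (by positivity)
  have hE2 : H ^ (1 / (K : ℝ)) < (E : ℝ) + 1 := by
    rw [hE]; exact Nat.lt_floor_add_one _
  have hpow : (H ^ (1 / (K : ℝ))) ^ K = H := by
    rw [← Real.rpow_natCast, ← Real.rpow_mul hH0.le, one_div, inv_mul_cancel₀ hKr.ne',
      Real.rpow_one]
  refine ⟨badPr K E ∪ (univ : Finset (Fin K)).image (fun i : Fin K => pr (i : ℕ)), ?_, ?_⟩
  · have h1 : ((badPr K E).card : ℝ) ≤ (2 * (E : ℝ) + 1) ^ K * (E * c) := by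
      have := card_badPr_le K E
      rw [← hc] at this
      exact_mod_cast this
    have h2 : (2 * (E : ℝ) + 1) ^ K ≤ 3 ^ K * H := by
      calc (2 * (E : ℝ) + 1) ^ K ≤ (3 * H ^ (1 / (K : ℝ))) ^ K := by
            apply pow_le_pow_left₀ (by positivity)
            linarith
        _ = 3 ^ K * H := by rw [mul_pow, hpow]
    have h3 : ((univ : Finset (Fin K)).image (fun i : Fin K => pr (i : ℕ))).card ≤ K := by
      refine Finset.card_image_le.trans ?_
      rw [Finset.card_univ, Fintype.card_fin]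
    have h4 : (1 : ℝ) ≤ H ^ (1 + 1 / (K : ℝ)) := Real.one_le_rpow hH (by positivity)
    have h5 : H ^ (1 + 1 / (K : ℝ)) = H * H ^ (1 / (K : ℝ)) := by
      rw [Real.rpow_add hH0, Real.rpow_one]
    have hc0 : (0 : ℝ) ≤ c := Nat.cast_nonneg _
    calc ((badPr K E ∪ (univ : Finset (Fin K)).image (fun i : Fin K => pr (i : ℕ))).card : ℝ)
        ≤ ((badPr K E).card : ℝ) + ((univ : Finset (Fin K)).image (fun i : Fin K => pr (i : ℕ))).card := by
          exact_mod_cast Finset.card_union_le _ _
      _ ≤ 3 ^ K * H * (H ^ (1 / (K : ℝ)) * c) + K := by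
          apply add_le_add
          · refine h1.trans ?_
            apply mul_le_mul h2 _ (by positivity) (by positivity)
            exact mul_le_mul_of_nonneg_right hE1 hc0
          · exact_mod_cast h3
      _ = 3 ^ K * c * H ^ (1 + 1 / (K : ℝ)) + K * 1 := by rw [h5]; ring
      _ ≤ 3 ^ K * c * H ^ (1 + 1 / (K : ℝ)) + K * H ^ (1 + 1 / (K : ℝ)) := by
          have := mul_le_mul_of_nonneg_left h4 hKr.le
          linarith
      _ = (3 ^ K * c + K) * H ^ (1 + 1 / (K : ℝ)) := by ring
  · intro p hp hcard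
    rw [mem_union]
    by_cases hpr : ∀ i : Fin K, ¬ p ∣ pr i
    · left
      apply mem_badPr hpr
      have h1 : (Nat.card (prGroup K p) : ℝ) < ((E : ℝ) + 1) ^ K := by
        calc (Nat.card (prGroup K p) : ℝ) ≤ H := hcard
          _ = (H ^ (1 / (K : ℝ))) ^ K := hpow.symm
          _ < ((E : ℝ) + 1) ^ K := by
              apply pow_lt_pow_left₀ hE2 (by positivity) (by omega)
      exact_mod_cast h1
    · right
      push Not at hpr
      obtain ⟨i, hi⟩ := hpr
      rw [mem_image]
      exact ⟨i, mem_univ _, ((Nat.prime_dvd_prime_iff_eq hp.out (pr_prime i)).1 hi).symm⟩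

end Pool.Agent.PrimRoot
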