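import Pool.Agent.MP_18a8a6_lc.FixedCount

/-!
For every `ε, η > 0` there is a finite set of positive integers such that for every `y` the
number of primes modulo which more than a fraction `η` of them has order at most `y` is
`O(y^(1+ε))`.
-/

set_option autoImplicit false

namespace Pool.Agent.PrimRoot

open Finset

theorem prodRes_eq {K p : ℕ} [Fact p.Prime] (hpr : ∀ i : Fin K, ¬ p ∣ pr i) (c : Fin K → ℕ) :
    ∏ i : Fin K, res p (pr i) ^ c i = res p (prodPr c) := by
  have hp : p.Prime := Fact.out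
  have hnd : ¬ p ∣ prodPr c := by
    unfold prodPr
    rw [Prime.dvd_finsetProd_iff hp.prime]
    rintro ⟨i, _, hi⟩
    exact hpr i (hp.dvd_of_dvd_pow hi)
  apply Units.ext
  rw [coe_res hnd]
  unfold prodPr
  push_cast
  apply Finset.prod_congr rfl
  intro i _
  rw [coe_res (hpr i)]

theorem orderOf_res {p a : ℕ} [Fact p.Prime] (h : ¬ p ∣ a) :
    orderOf (res p a) = orderOf (a : ZMod p) := by
  rw [← orderOf_units, coe_res h]

theorem not_dvd_prodPr {K p : ℕ} [Fact p.Prime] (hpr : ∀ i : Fin K, ¬ p ∣ pr i) (c : Fin K → ℕ) :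
    ¬ p ∣ prodPr c := by
  have hp : p.Prime := Fact.out
  unfold prodPr
  rw [Prime.dvd_finsetProd_iff hp.prime]
  rintro ⟨i, _, hi⟩
  exact hpr i (hp.dvd_of_dvd_pow hi)

/-- **Orders of fixed integers.** -/
theorem fixed_orders {ε η : ℝ} (hε : 0 < ε) (hη : 0 < η) {K M : ℕ}
    (hK : 3 / (2 * ε) + 1 / 2 ≤ K) (hM : 2 * (1 + ε / 3) / (η * (ε / 3)) ≤ M) :
    ∃ C : ℝ, 0 < C ∧ ∀ y : ℝ, 1 ≤ y → ∃ S : Finset ℕ, (S.card : ℝ) ≤ C * y ^ (1 + ε) ∧
      ∀ (p : ℕ) [Fact p.Prime], p ∉ S → (∀ i : Fin K, ¬ p ∣ pr i) ∧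
        (((univ : Finset (Fin K → Fin M)).filter (fun v =>
          (orderOf ((prodPr (fun i => (v i : ℕ)) : ℕ) : ZMod p) : ℝ) ≤ y)).card : ℝ) <
            η * (M : ℝ) ^ K := by
  classical
  obtain ⟨e, he⟩ : ∃ e, e = ε / 3 := ⟨_, rfl⟩
  have he0 : 0 < e := by rw [he]; positivity
  have hK0 : (0 : ℝ) < K := by
    have : 0 < 3 / (2 * ε) := by positivity
    linarith
  have hK1 : 1 ≤ K := by exact_mod_cast hK0
  rw [← he] at hM
  have hM0 : (0 : ℝ) < M := lt_of_lt_of_le (by positivity) hM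
  have hM1 : 1 ≤ M := by exact_mod_cast hM0
  -- exponent
  have hexp : (1 + e) * (1 + 1 / (K : ℝ)) ≤ 1 + ε := by
    have h1 : 3 / (2 * ε) + 1 / 2 ≤ K := by linarith
    have h2 : 3 + ε ≤ 2 * ε * K := by
      have h3 := mul_le_mul_of_nonneg_left h1 (by positivity : (0 : ℝ) ≤ 2 * ε)
      have h4 : 2 * ε * (3 / (2 * ε) + 1 / 2) = 3 + ε := by field_simp
      linarith
    have h5 : (1 + e) / K ≤ 2 * ε / 3 := by
      rw [div_le_iff₀ hK0, he]
      linarith
    have h6 : (1 + e) * (1 + 1 / (K : ℝ)) = 1 + e + (1 + e) / K := by ring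
    rw [h6]
    linarith
  have hcoef : η ≤ (1 + e) * (η - 2 / M) := by
    have h2 : 2 * (1 + e) ≤ η * e * M := by
      rw [div_le_iff₀ (by positivity)] at hM
      linarith
    have h3 : 2 * (1 + e) / M ≤ η * e := by
      rw [div_le_iff₀ hM0]; exact h2
    have h4 : (1 + e) * (η - 2 / M) = η + η * e - 2 * (1 + e) / M := by ring
    rw [h4]
    linarith
  obtain ⟨C, hC, hsmall⟩ := card_small_group K hK1
  obtain ⟨c1, hc1⟩ : ∃ c1, c1 = Real.exp ((1 + e) * (mang M / η)) := ⟨_, rfl⟩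
  have hc1pos : 0 < c1 := by rw [hc1]; exact Real.exp_pos _
  have hmang := mang_nonneg M
  have hc1one : 1 ≤ c1 := by
    rw [hc1]
    apply Real.one_le_exp
    positivity
  refine ⟨C * c1 ^ (1 + 1 / (K : ℝ)) + K, by positivity, fun y hy => ?_⟩
  have hy0 : 0 < y := by linarith
  have hH1 : 1 ≤ c1 * y ^ (1 + e) := by
    have := Real.one_le_rpow hy (by positivity : 0 ≤ 1 + e)
    nlinarith
  obtain ⟨S, hS1, hS2⟩ := hsmall (c1 * y ^ (1 + e)) hH1
  refine ⟨S ∪ (univ : Finset (Fin K)).image (fun i : Fin K => pr (i : ℕ)), ?_, ?_⟩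
  · have h3 : ((univ : Finset (Fin K)).image (fun i : Fin K => pr (i : ℕ))).card ≤ K := by
      refine Finset.card_image_le.trans ?_
      rw [Finset.card_univ, Fintype.card_fin]
    have h4 : (1 : ℝ) ≤ y ^ (1 + ε) := Real.one_le_rpow hy (by positivity)
    have h5 : (c1 * y ^ (1 + e)) ^ (1 + 1 / (K : ℝ)) ≤ c1 ^ (1 + 1 / (K : ℝ)) * y ^ (1 + ε) := by
      rw [Real.mul_rpow hc1pos.le (by positivity), ← Real.rpow_mul hy0.le]
      apply mul_le_mul_of_nonneg_left _ (by positivity)
      exact Real.rpow_le_rpow_of_exponent_le hy hexp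
    calc (((S ∪ (univ : Finset (Fin K)).image (fun i : Fin K => pr (i : ℕ))).card : ℕ) : ℝ)
        ≤ (S.card : ℝ) + ((univ : Finset (Fin K)).image (fun i : Fin K => pr (i : ℕ))).card := by
          exact_mod_cast Finset.card_union_le _ _
      _ ≤ C * (c1 ^ (1 + 1 / (K : ℝ)) * y ^ (1 + ε)) + K := by
          apply add_le_add
          · exact hS1.trans (mul_le_mul_of_nonneg_left h5 hC.le)
          · exact_mod_cast h3
      _ ≤ C * (c1 ^ (1 + 1 / (K : ℝ)) * y ^ (1 + ε)) + K * y ^ (1 + ε) := by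
          have := mul_le_mul_of_nonneg_left h4 hK0.le
          linarith
      _ = (C * c1 ^ (1 + 1 / (K : ℝ)) + K) * y ^ (1 + ε) := by ring
  · intro p hp hpS
    rw [mem_union, not_or] at hpS
    have hpr : ∀ i : Fin K, ¬ p ∣ pr i := by
      intro i hi
      apply hpS.2
      rw [mem_image]
      exact ⟨i, mem_univ _, ((Nat.prime_dvd_prime_iff_eq hp.out (pr_prime i)).1 hi).symm⟩
    refine ⟨hpr, ?_⟩
    by_contra hcon
    push Not at hcon
    apply hpS.1
    apply hS2
    have hcyc : IsCyclic (ZMod p)ˣ := inferInstance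
    have hcon' : η * (M : ℝ) ^ K ≤ (((univ : Finset (Fin K → Fin M)).filter
        (fun v => (orderOf (∏ i : Fin K, res p (pr i) ^ (v i : ℕ)) : ℝ) ≤ y)).card : ℝ) := by
      refine hcon.trans (le_of_eq ?_)
      congr 2
      apply Finset.filter_congr
      intro v _
      rw [prodRes_eq hpr, orderOf_res (not_dvd_prodPr hpr _)]
    have hlog := log_card_le hM1 (fun i : Fin K => res p (pr i)) hη.le hy hcon'
    change (η - 2 / M) * Real.log (Nat.card (prGroup K p)) ≤ _ at hlog
    have hn0 : (0 : ℝ) < Nat.card (prGroup K p) := by exact_mod_cast Nat.card_pos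
    have hlogn : 0 ≤ Real.log (Nat.card (prGroup K p)) :=
      Real.log_nonneg (by exact_mod_cast Nat.card_pos (α := prGroup K p))
    have hlogy : 0 ≤ Real.log y := Real.log_nonneg hy
    -- `η log n ≤ (1+e) (η log y + mang M)`
    have h1 : η * Real.log (Nat.card (prGroup K p)) ≤ (1 + e) * (η * Real.log y + mang M) := by
      calc η * Real.log (Nat.card (prGroup K p))
          ≤ (1 + e) * (η - 2 / M) * Real.log (Nat.card (prGroup K p)) :=
            mul_le_mul_of_nonneg_right hcoef hlogn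
        _ = (1 + e) * ((η - 2 / M) * Real.log (Nat.card (prGroup K p))) := by ring
        _ ≤ (1 + e) * (η * Real.log y + mang M) :=
            mul_le_mul_of_nonneg_left hlog (by positivity)
    have h2 : Real.log (Nat.card (prGroup K p)) ≤ (1 + e) * (mang M / η) + (1 + e) * Real.log y := by
      have h3 : η * ((1 + e) * (mang M / η) + (1 + e) * Real.log y) =
          (1 + e) * (η * Real.log y + mang M) := by
        field_simp
        ring
      rw [← h3] at h1
      exact le_of_mul_le_mul_left h1 hη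
    calc (Nat.card (prGroup K p) : ℝ) = Real.exp (Real.log (Nat.card (prGroup K p))) :=
          (Real.exp_log hn0).symm
      _ ≤ Real.exp ((1 + e) * (mang M / η) + (1 + e) * Real.log y) := Real.exp_le_exp.2 h2
      _ = c1 * y ^ (1 + e) := by
          rw [Real.exp_add, ← hc1, Real.rpow_def_of_pos hy0, mul_comm (1 + e) (Real.log y)]

end Pool.Agent.PrimRoot
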