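import Mathlib

/-!
An elementary form of the large sieve for sparse sets of moduli (variance argument): if a set of
integers in `[0, N)` avoids half of the residue classes modulo each of the primes `p < 2 ^ L` of a
set `S` and `N ≥ card S * 4 ^ L`, then it has at most `8 N / card S` elements.
-/

set_option autoImplicit false

namespace Pool.Agent.PrimRoot

open Finset

/-- Sums of a bounded periodic function of mean zero are bounded by the period. -/
theorem periodic_sum_le {F : ℕ → ℝ} {T : ℕ} (hT : 0 < T) (hper : ∀ k, F (T + k) = F k)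
    (h0 : ∑ k ∈ range T, F k = 0) (hb : ∀ k, |F k| ≤ 1) (N : ℕ) :
    |∑ k ∈ range N, F k| ≤ T := by
  induction N using Nat.strong_induction_on with
  | _ N ih =>
    rcases lt_or_ge N T with h | h
    · calc |∑ k ∈ range N, F k| ≤ ∑ k ∈ range N, |F k| := Finset.abs_sum_le_sum_abs _ _
        _ ≤ ∑ _k ∈ range N, (1 : ℝ) := Finset.sum_le_sum fun k _ => hb k
        _ = N := by simp
        _ ≤ T := by exact_mod_cast h.le
    · obtain ⟨M, rfl⟩ := Nat.exists_eq_add_of_le h
      rw [Finset.sum_range_add, h0, zero_add]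
      have e : ∑ k ∈ range M, F (T + k) = ∑ k ∈ range M, F k :=
        Finset.sum_congr rfl fun k _ => hper k
      rw [e]
      exact ih M (by omega)

/-- Chinese remainder theorem for sums of products. -/
theorem sum_mul_coprime {p q : ℕ} (hp : 0 < p) (hq : 0 < q) (hpq : p.Coprime q)
    {f g : ℕ → ℝ} (hf : ∀ k, f (k % p) = f k) (hg : ∀ k, g (k % q) = g k) :
    ∑ k ∈ range (p * q), f k * g k = (∑ k ∈ range p, f k) * ∑ k ∈ range q, g k := by
  rw [Finset.sum_mul_sum, ← Finset.sum_product']
  have hinj : Set.InjOn (fun k : ℕ => (k % p, k % q)) (range (p * q) : Finset ℕ) := by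
    intro a ha b hb hab
    rw [Finset.mem_coe, Finset.mem_range] at ha hb
    simp only [Prod.mk.injEq] at hab
    have h1 : a ≡ b [MOD p * q] := (Nat.modEq_and_modEq_iff_modEq_mul hpq).1 ⟨hab.1, hab.2⟩
    have h2 : a % (p * q) = b % (p * q) := h1
    rwa [Nat.mod_eq_of_lt ha, Nat.mod_eq_of_lt hb] at h2
  have hmaps : Set.MapsTo (fun k : ℕ => (k % p, k % q)) (range (p * q) : Finset ℕ)
      (range p ×ˢ range q : Finset (ℕ × ℕ)) := by
    intro k _
    rw [Finset.mem_coe, Finset.mem_product, Finset.mem_range, Finset.mem_range]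
    exact ⟨Nat.mod_lt _ hp, Nat.mod_lt _ hq⟩
  have hsurj : Set.SurjOn (fun k : ℕ => (k % p, k % q)) (range (p * q) : Finset ℕ)
      (range p ×ˢ range q : Finset (ℕ × ℕ)) := by
    apply Finset.surjOn_of_injOn_of_card_le _ hmaps hinj
    simp
  refine Finset.sum_nbij (fun k : ℕ => (k % p, k % q)) hmaps hinj hsurj ?_
  intro k _
  rw [hf, hg]

/-- The centred indicator of the residue classes `R` modulo `p`. -/
noncomputable def cind (p : ℕ) (R : Finset ℕ) (n : ℕ) : ℝ :=
  (if n % p ∈ R then 1 else 0) - (R.card : ℝ) / p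

theorem cind_mod (p : ℕ) (R : Finset ℕ) (n : ℕ) : cind p R (n % p) = cind p R n := by
  simp [cind]

theorem cind_sum {p : ℕ} (hp : 0 < p) {R : Finset ℕ} (hR : R ⊆ range p) :
    ∑ k ∈ range p, cind p R k = 0 := by
  unfold cind
  rw [Finset.sum_sub_distrib]
  have h1 : ∑ k ∈ range p, (if k % p ∈ R then (1 : ℝ) else 0) = R.card := by
    have h2 : ∑ k ∈ range p, (if k % p ∈ R then (1 : ℝ) else 0) =
        ∑ k ∈ range p, (if k ∈ R then (1 : ℝ) else 0) := by
      apply Finset.sum_congr rfl
      intro k hk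
      rw [Nat.mod_eq_of_lt (Finset.mem_range.1 hk)]
    rw [h2, Finset.sum_boole]
    congr 1
    rw [Finset.filter_mem_eq_inter, Finset.inter_eq_right.2 hR]
  rw [h1]
  simp only [Finset.sum_const, Finset.card_range, nsmul_eq_mul]
  have : (p : ℝ) ≠ 0 := by exact_mod_cast hp.ne'
  field_simp
  ring

theorem abs_cind_le {p : ℕ} {R : Finset ℕ} (hR : R ⊆ range p) (n : ℕ) :
    |cind p R n| ≤ 1 := by
  unfold cind
  have h1 : (R.card : ℝ) ≤ p := by
    have := Finset.card_le_card hR
    rw [Finset.card_range] at this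
    exact_mod_cast this
  have h2 : (R.card : ℝ) / p ≤ 1 := div_le_one_of_le₀ h1 (by positivity)
  have h3 : 0 ≤ (R.card : ℝ) / p := by positivity
  split_ifs
  · rw [abs_le]; constructor <;> linarith
  · rw [abs_le]; constructor <;> linarith

/-- Correlation of two centred indicators. -/
theorem corr_le {p q : ℕ} (hp : p.Prime) (hq : q.Prime) (hpq : p ≠ q) {R R' : Finset ℕ}
    (hR : R ⊆ range p) (hR' : R' ⊆ range q) (N : ℕ) :
    |∑ k ∈ range N, cind p R k * cind q R' k| ≤ ((p * q : ℕ) : ℝ) := by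
  apply periodic_sum_le (Nat.mul_pos hp.pos hq.pos)
  · intro k
    have e1 : cind p R (p * q + k) = cind p R k := by
      rw [← cind_mod p R (p * q + k), ← cind_mod p R k]
      congr 1
      rw [Nat.add_mod, Nat.mul_mod_right, zero_add, Nat.mod_mod]
    have e2 : cind q R' (p * q + k) = cind q R' k := by
      rw [← cind_mod q R' (p * q + k), ← cind_mod q R' k]
      congr 1
      rw [Nat.add_mod, Nat.mul_mod_left, zero_add, Nat.mod_mod]
    rw [e1, e2]
  · rw [sum_mul_coprime hp.pos hq.pos ((Nat.coprime_primes hp hq).2 hpq) (cind_mod p R)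
      (cind_mod q R'), cind_sum hp.pos hR, zero_mul]
  · intro k
    rw [abs_mul]
    exact mul_le_one₀ (abs_cind_le hR k) (abs_nonneg _) (abs_cind_le hR' k)

/-- **Sieve lemma.** -/
theorem sieve_lemma {L N : ℕ} {S : Finset ℕ} (hS : ∀ p ∈ S, p.Prime ∧ p < 2 ^ L)
    {R : ℕ → Finset ℕ} (hR : ∀ p ∈ S, R p ⊆ range p ∧ 2 * (R p).card ≤ p)
    (hN : S.card * 4 ^ L ≤ N) {A : Finset ℕ} (hAN : A ⊆ range N)
    (hA : ∀ n ∈ A, ∀ p ∈ S, n % p ∈ R p) : S.card * A.card ≤ 8 * N := by
  set F : ℕ → ℝ := fun n => ∑ p ∈ S, cind p (R p) n with hF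
  -- variance
  have hvar : ∑ n ∈ range N, F n ^ 2 ≤ 2 * (S.card : ℝ) * N := by
    have e1 : ∑ n ∈ range N, F n ^ 2 =
        ∑ p ∈ S, ∑ q ∈ S, ∑ n ∈ range N, cind p (R p) n * cind q (R q) n := by
      have : ∀ n, F n ^ 2 = ∑ p ∈ S, ∑ q ∈ S, cind p (R p) n * cind q (R q) n := by
        intro n
        rw [sq, hF]
        exact Finset.sum_mul_sum _ _ _ _
      rw [Finset.sum_congr rfl fun n _ => this n, Finset.sum_comm]
      apply Finset.sum_congr rfl
      intro p _
      rw [Finset.sum_comm]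
    rw [e1]
    have e2 : ∀ p ∈ S, ∑ q ∈ S, ∑ n ∈ range N, cind p (R p) n * cind q (R q) n ≤
        (N : ℝ) + (S.card : ℝ) * 4 ^ L := by
      intro p hp
      have hbound : ∀ q ∈ S, ∑ n ∈ range N, cind p (R p) n * cind q (R q) n ≤
          (if q = p then (N : ℝ) else 0) + 4 ^ L := by
        intro q hq
        split_ifs with hqp
        · subst hqp
          have : ∑ n ∈ range N, cind q (R q) n * cind q (R q) n ≤ ∑ _n ∈ range N, (1 : ℝ) := by
            apply Finset.sum_le_sum
            intro n _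
            have h1 := abs_cind_le (hR q hq).1 n
            rw [abs_le] at h1
            nlinarith
          rw [Finset.sum_const, Finset.card_range, nsmul_eq_mul, mul_one] at this
          have h4 : (0 : ℝ) ≤ 4 ^ L := by positivity
          linarith
        · have h1 := corr_le (hS p hp).1 (hS q hq).1 (Ne.symm hqp) (hR p hp).1 (hR q hq).1 N
          have h2 := le_of_abs_le h1
          have h3 : ((p * q : ℕ) : ℝ) ≤ 4 ^ L := by
            have h5 : p * q ≤ 2 ^ L * 2 ^ L :=
              Nat.mul_le_mul (hS p hp).2.le (hS q hq).2.le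
            have h6 : (2 : ℕ) ^ L * 2 ^ L = 4 ^ L := by rw [← mul_pow]; norm_num
            rw [h6] at h5
            exact_mod_cast h5
          linarith
      refine (Finset.sum_le_sum hbound).trans ?_
      rw [Finset.sum_add_distrib, Finset.sum_ite_eq' S p, if_pos hp, Finset.sum_const,
        nsmul_eq_mul]
    refine (Finset.sum_le_sum e2).trans ?_
    rw [Finset.sum_const, nsmul_eq_mul]
    have h7 : (S.card : ℝ) * 4 ^ L ≤ N := by exact_mod_cast hN
    have h8 : (0 : ℝ) ≤ S.card := by positivity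
    nlinarith
  -- lower bound on A
  have hlow : ∀ n ∈ A, (S.card : ℝ) / 2 ≤ F n := by
    intro n hn
    have : ∑ _p ∈ S, (1 / 2 : ℝ) ≤ F n := by
      apply Finset.sum_le_sum
      intro p hp
      unfold cind
      rw [if_pos (hA n hn p hp)]
      have h1 : (2 : ℝ) * (R p).card ≤ p := by exact_mod_cast (hR p hp).2
      have hp0 : (0 : ℝ) < p := by exact_mod_cast (hS p hp).1.pos
      have h2 : ((R p).card : ℝ) / p ≤ 1 / 2 := by
        rw [div_le_div_iff₀ hp0 (by norm_num)]
        linarith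
      linarith
    rw [Finset.sum_const, nsmul_eq_mul] at this
    linarith
  have hS0 : (0 : ℝ) ≤ S.card := by positivity
  have h9 : (A.card : ℝ) * ((S.card : ℝ) / 2) ^ 2 ≤ 2 * (S.card : ℝ) * N := by
    calc (A.card : ℝ) * ((S.card : ℝ) / 2) ^ 2 = ∑ _n ∈ A, ((S.card : ℝ) / 2) ^ 2 := by
          rw [Finset.sum_const, nsmul_eq_mul]
      _ ≤ ∑ n ∈ A, F n ^ 2 := by
          apply Finset.sum_le_sum
          intro n hn
          exact pow_le_pow_left₀ (by positivity) (hlow n hn) 2
      _ ≤ ∑ n ∈ range N, F n ^ 2 :=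
          Finset.sum_le_sum_of_subset_of_nonneg hAN fun n _ _ => sq_nonneg _
      _ ≤ _ := hvar
  rcases Nat.eq_zero_or_pos S.card with h0 | h0
  · rw [h0]; simp
  · have hSpos : (0 : ℝ) < S.card := by exact_mod_cast h0
    have h10 : (S.card : ℝ) * ((S.card : ℝ) * A.card) ≤ (S.card : ℝ) * (8 * N) := by nlinarith
    have h11 := le_of_mul_le_mul_left h10 hSpos
    exact_mod_cast h11

end Pool.Agent.PrimRoot
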