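import Pool.Agent.MP_18a8a6_lc.Quant
import Pool.Agent.MP_18a8a6_lc.Variance

/-!
For all but `2 ^ (L / k)` of the primes `p` with `L` bits, the integers up to `L ^ A` generate the
multiplicative group modulo `p`.
-/

set_option autoImplicit false

namespace Pool.Agent.PrimRoot

open Finset

open Classical in
/-- The residues (least nonnegative) of the subgroup generated by `1, ..., B` modulo `p`. -/
noncomputable def genRes (B p : ℕ) : Finset ℕ :=
  if hp : p.Prime then
    haveI : Fact p.Prime := ⟨hp⟩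
    ((Finset.univ : Finset (ZMod p)ˣ).filter (fun x => x ∈ genSub (res p) B)).image
      (fun x : (ZMod p)ˣ => (x : ZMod p).val)
  else ∅

theorem genRes_subset (B p : ℕ) : genRes B p ⊆ range p := by
  classical
  unfold genRes
  split_ifs with hp
  · have : Fact p.Prime := ⟨hp⟩
    intro n hn
    rw [Finset.mem_image] at hn
    obtain ⟨x, _, rfl⟩ := hn
    exact Finset.mem_range.2 (ZMod.val_lt _)
  · simp

theorem two_mul_card_le {p : ℕ} [Fact p.Prime] {H : Subgroup (ZMod p)ˣ} (hH : H ≠ ⊤) :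
    2 * Nat.card H ≤ p := by
  have hmul : Nat.card H * H.index = p - 1 := by
    rw [Subgroup.card_mul_index, Nat.card_eq_fintype_card, ZMod.card_units]
  have hidx : H.index ≠ 1 := fun h => hH (Subgroup.index_eq_one.1 h)
  have hidx0 : H.index ≠ 0 := Subgroup.index_ne_zero_of_finite
  have h2 : 2 ≤ H.index := by omega
  have h3 : 2 * Nat.card H ≤ Nat.card H * H.index := by
    rw [mul_comm 2]; exact Nat.mul_le_mul_left _ h2
  omega

theorem genRes_card {B p : ℕ} [hp : Fact p.Prime] (hH : genSub (res p) B ≠ ⊤) :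
    2 * (genRes B p).card ≤ p := by
  classical
  refine le_trans ?_ (two_mul_card_le hH)
  apply Nat.mul_le_mul_left
  unfold genRes
  rw [dif_pos hp.out]
  refine Finset.card_image_le.trans ?_
  rw [Nat.card_eq_fintype_card, ← Fintype.card_subtype]

theorem mem_genRes {B p : ℕ} [hp : Fact p.Prime] (hBp : B < p) {s : Finset ℕ}
    (hs : ∀ q ∈ s, q.Prime ∧ q ≤ B) : (∏ q ∈ s, q) % p ∈ genRes B p := by
  classical
  unfold genRes
  rw [dif_pos hp.out, Finset.mem_image]
  refine ⟨∏ q ∈ s, res p q, ?_, ?_⟩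
  · rw [Finset.mem_filter]
    refine ⟨Finset.mem_univ _, Subgroup.prod_mem _ fun q hq => ?_⟩
    exact a_mem (res p) B (Finset.mem_Icc.2 ⟨(hs q hq).1.one_lt.le, (hs q hq).2⟩)
  · have h1 : ((∏ q ∈ s, res p q : (ZMod p)ˣ) : ZMod p) = ((∏ q ∈ s, q : ℕ) : ZMod p) := by
      rw [Units.coe_prod, Nat.cast_prod]
      apply Finset.prod_congr rfl
      intro q hq
      exact res_val (hs q hq).1.pos (lt_of_le_of_lt (hs q hq).2 hBp)
    rw [h1, ZMod.val_natCast]

/-- The squarefree smooth numbers used as the test set. -/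
noncomputable def testSet (B u : ℕ) : Finset ℕ :=
  (Finset.powersetCard u (Nat.primesLE B)).image (fun s => ∏ q ∈ s, q)

theorem primesLE_prime {B : ℕ} : ∀ q ∈ Nat.primesLE B, q.Prime ∧ q ≤ B := by
  intro q hq
  rw [Nat.mem_primesLE] at hq
  exact ⟨hq.2, hq.1⟩

theorem testSet_card (B u : ℕ) : (testSet B u).card = (Nat.primeCounting B).choose u := by
  unfold testSet
  rw [Finset.card_image_of_injOn, Finset.card_powersetCard, Nat.primesLE_card_eq_primeCounting]
  intro s hs s' hs' heq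
  rw [Finset.mem_coe, Finset.mem_powersetCard] at hs hs'
  have heq' : ∏ q ∈ s, q = ∏ q ∈ s', q := heq
  rw [← Nat.primeFactors_prod (fun q hq => (primesLE_prime q (hs.1 hq)).1),
    ← Nat.primeFactors_prod (fun q hq => (primesLE_prime q (hs'.1 hq)).1), heq']

theorem testSet_lt {B u N : ℕ} (h : B ^ u < N) : testSet B u ⊆ range N := by
  intro n hn
  unfold testSet at hn
  rw [Finset.mem_image] at hn
  obtain ⟨s, hs, rfl⟩ := hn
  rw [Finset.mem_powersetCard] at hs
  rw [Finset.mem_range]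
  refine lt_of_le_of_lt ?_ h
  rw [← hs.2]
  exact prod_le_pow_card fun q hq => (primesLE_prime q (hs.1 hq)).2

/-- Few primes for which the small integers do not generate. -/
theorem few_bad (k : ℕ) (hk : 1 ≤ k) : ∃ A L0 : ℕ, 2 ≤ A ∧ ∀ L, L0 ≤ L → 4 ≤ L ∧
    L ^ A < 2 ^ (L - 1) ∧ ∀ S : Finset ℕ,
    (∀ p ∈ S, p.Prime ∧ 2 ^ (L - 1) ≤ p ∧ p < 2 ^ L) →
    (∀ p ∈ S, ∀ _ : Fact p.Prime, genSub (res p) (L ^ A) ≠ ⊤) → S.card < 2 ^ (L / k) := by
  obtain ⟨A, hA⟩ : ∃ A, A = 16 * k + 2 := ⟨_, rfl⟩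
  obtain ⟨n0, hn0⟩ := exists_pow_lt (4 * k * A)
  refine ⟨A, max (n0 + 1) (max (10 * k + 1) 12), by omega, fun L hL => ?_⟩
  have hL1 : n0 + 1 ≤ L := (le_max_left _ _).trans hL
  have hL2 : 10 * k + 1 ≤ L := (le_max_left _ _).trans ((le_max_right _ _).trans hL)
  have hL3 : 12 ≤ L := (le_max_right _ _).trans ((le_max_right _ _).trans hL)
  have hpow : L ^ (4 * k * A) < 2 ^ (L - 1) := by
    have := hn0 (L - 1) (by omega)
    rwa [Nat.sub_add_cancel (by omega)] at this
  have hBlt : L ^ A < 2 ^ (L - 1) := by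
    refine lt_of_le_of_lt (Nat.pow_le_pow_right (by omega) ?_) hpow
    calc A = 1 * A := (one_mul A).symm
      _ ≤ 4 * k * A := Nat.mul_le_mul_right _ (by omega)
  refine ⟨by omega, hBlt, fun S hS hgen => ?_⟩
  by_contra hcon
  push Not at hcon
  obtain ⟨S', hS', hcard⟩ := Finset.exists_subset_card_eq hcon
  obtain ⟨B, hB⟩ : ∃ B, B = L ^ A := ⟨_, rfl⟩
  obtain ⟨m, hm⟩ : ∃ m, m = L / k := ⟨_, rfl⟩
  rw [← hm] at hcard
  obtain ⟨N, hN⟩ : ∃ N, N = 2 ^ (2 * L + m) := ⟨_, rfl⟩
  have hmL : m ≤ L := by rw [hm]; exact Nat.div_le_self _ _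
  have hNeq : N = 2 ^ m * 4 ^ L := by
    rw [hN, pow_add, pow_mul, mul_comm]; norm_num
  rw [← hB] at hBlt hgen
  have hB1 : 1 < B := by
    rw [hB]; exact Nat.one_lt_pow (by omega) (by omega)
  have hB6 : 6 ≤ B := by
    calc 6 ≤ L ^ 1 := by rw [pow_one]; omega
      _ ≤ L ^ A := Nat.pow_le_pow_right (by omega) (by omega)
      _ = B := hB.symm
  have hNge : 2 ^ (L - 1) < N := by
    rw [hN]; exact Nat.pow_lt_pow_right (by norm_num) (by omega)
  obtain ⟨u, hu⟩ : ∃ u, u = Nat.log B (N - 1) := ⟨_, rfl⟩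
  have hu0 : 0 < u := by
    rw [hu]; exact Nat.log_pos hB1 (by omega)
  have hu1 : B ^ u < N := by
    have : B ^ u ≤ N - 1 := by
      rw [hu]; exact Nat.pow_log_le_self B (by omega)
    omega
  have hu2 : N ≤ B ^ (u + 1) := by
    have : N - 1 < B ^ (u + 1) := by
      rw [hu]; exact Nat.lt_pow_succ_log_self hB1 (N - 1)
    omega
  have hsieve := sieve_lemma (L := L) (N := N) (S := S') (R := genRes B) (A := testSet B u)
    (fun p hp => ⟨(hS p (hS' hp)).1, (hS p (hS' hp)).2.2⟩)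
    (fun p hp => by
      have : Fact p.Prime := ⟨(hS p (hS' hp)).1⟩
      exact ⟨genRes_subset B p, genRes_card (hgen p (hS' hp) _)⟩)
    (by rw [hcard, hNeq]) (testSet_lt hu1)
    (by
      intro n hn p hp
      have : Fact p.Prime := ⟨(hS p (hS' hp)).1⟩
      unfold testSet at hn
      rw [Finset.mem_image] at hn
      obtain ⟨s, hs, rfl⟩ := hn
      rw [Finset.mem_powersetCard] at hs
      exact mem_genRes (lt_of_lt_of_le hBlt (hS p (hS' hp)).2.1)
        (fun q hq => primesLE_prime q (hs.1 hq)))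
  rw [hcard, testSet_card, hNeq, show 8 * (2 ^ m * 4 ^ L) = 2 ^ m * (8 * 4 ^ L) by ring] at hsieve
  have hsieve2 : (Nat.primeCounting B).choose u ≤ 8 * 4 ^ L :=
    Nat.le_of_mul_le_mul_left hsieve (by positivity)
  -- lower bound for the binomial coefficient
  obtain ⟨M, hM⟩ : ∃ M, M = L ^ (A - 2) := ⟨_, rfl⟩
  have hM1 : 1 ≤ M := by rw [hM]; exact Nat.one_le_pow _ _ (by omega)
  have hMB : 4 * (3 * L) * M ≤ B := by
    have e : B = L * L * L ^ (A - 2) := by
      rw [hB, ← pow_two, ← pow_add]; congr 1; omega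
    rw [e, hM]
    apply Nat.mul_le_mul_right
    nlinarith
  have hpi : 2 * u * M ≤ Nat.primeCounting B := by
    apply pi_lower hB6 _ hMB
    refine hu1.trans_le ?_
    rw [hN]
    exact Nat.pow_le_pow_right (by norm_num) (by omega)
  have h3 : 2 * u ≤ Nat.primeCounting B := le_trans (by nlinarith) hpi
  have h4 := pow_le_choose' (Nat.primeCounting B) u hu0 h3
  have hupos : (0 : ℝ) < u := by exact_mod_cast hu0
  have h5 : (M : ℝ) ≤ (Nat.primeCounting B : ℝ) / (2 * u) := by
    rw [le_div_iff₀ (by positivity)]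
    have : ((2 * u * M : ℕ) : ℝ) ≤ (Nat.primeCounting B : ℝ) := by exact_mod_cast hpi
    push_cast at this
    linarith
  have h6 : ((M : ℝ)) ^ u ≤ 8 * 4 ^ L := by
    calc (M : ℝ) ^ u ≤ ((Nat.primeCounting B : ℝ) / (2 * u)) ^ u :=
          pow_le_pow_left₀ (by positivity) h5 u
      _ ≤ ((Nat.primeCounting B).choose u : ℝ) := h4
      _ ≤ ((8 * 4 ^ L : ℕ) : ℝ) := by exact_mod_cast hsieve2
      _ = _ := by push_cast; ring
  -- logarithms
  have hlog2 : 0 < Real.log 2 := Real.log_pos (by norm_num)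
  have hLr : (12 : ℝ) ≤ L := by exact_mod_cast hL3
  have hkr : (1 : ℝ) ≤ k := by exact_mod_cast hk
  have hAr : (A : ℝ) = 16 * k + 2 := by rw [hA]; push_cast; ring
  have hlogL : 0 ≤ Real.log L := Real.log_nonneg (by linarith)
  have g1 : (A - 2 : ℝ) * u * Real.log L ≤ (2 * L + 3) * Real.log 2 := by
    have h7 := Real.log_le_log (by positivity) h6
    rw [Real.log_pow, hM] at h7
    push_cast at h7
    rw [Real.log_pow, show (8 : ℝ) * 4 ^ L = 2 ^ (2 * L + 3) by
      rw [pow_add, pow_mul]; norm_num; ring, Real.log_pow] at h7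
    push_cast [Nat.cast_sub (show 2 ≤ A by omega)] at h7
    linarith
  have g2 : (2 * L + m : ℝ) * Real.log 2 ≤ A * (u + 1) * Real.log L := by
    have h8 : ((2 : ℝ)) ^ (2 * L + m) ≤ (L : ℝ) ^ (A * (u + 1)) := by
      have : 2 ^ (2 * L + m) ≤ L ^ (A * (u + 1)) := by
        rw [pow_mul, ← hB, ← hN]; exact hu2
      exact_mod_cast this
    have h9 := Real.log_le_log (by positivity) h8
    rw [Real.log_pow, Real.log_pow] at h9
    push_cast at h9
    linarith
  have g3 : (4 * k * A : ℝ) * Real.log L ≤ L * Real.log 2 := by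
    have h10 : (L : ℝ) ^ (4 * k * A) ≤ 2 ^ L := by
      have : L ^ (4 * k * A) ≤ 2 ^ L :=
        hpow.le.trans (Nat.pow_le_pow_right (by norm_num) (by omega))
      exact_mod_cast this
    have h11 := Real.log_le_log (by positivity) h10
    rw [Real.log_pow, Real.log_pow] at h11
    push_cast at h11
    linarith
  have g4 : (L : ℝ) / k - 1 ≤ m := by
    have h12 : L < k * (m + 1) := by
      rw [hm]; exact Nat.lt_mul_div_succ L (by omega)
    have h13 : (L : ℝ) ≤ k * (m + 1) := by exact_mod_cast h12.le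
    have : (L : ℝ) / k ≤ m + 1 := by
      rw [div_le_iff₀ (by linarith)]
      linarith
    linarith
  have hL10 : (10 * k + 1 : ℝ) ≤ L := by exact_mod_cast hL2
  -- combine
  have hkpos : (0 : ℝ) < k := by linarith
  have hA2 : (A - 2 : ℝ) = 16 * k := by rw [hAr]; ring
  rw [hA2] at g1
  -- u log L ≤ (2L+3)/(16k) log 2
  have g5 : (u : ℝ) * Real.log L ≤ (2 * L + 3) / (16 * k) * Real.log 2 := by
    rw [div_mul_eq_mul_div, le_div_iff₀ (by positivity)]
    linarith
  have g6 : (A : ℝ) * Real.log L ≤ L / (4 * k) * Real.log 2 := by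
    rw [div_mul_eq_mul_div, le_div_iff₀ (by positivity)]
    linarith
  have g7 : (2 * L + m : ℝ) * Real.log 2 ≤
      ((16 * k + 2) * ((2 * L + 3) / (16 * k)) + L / (4 * k)) * Real.log 2 := by
    calc (2 * L + m : ℝ) * Real.log 2 ≤ A * (u + 1) * Real.log L := g2
      _ = A * (u * Real.log L) + A * Real.log L := by ring
      _ ≤ A * ((2 * L + 3) / (16 * k) * Real.log 2) + L / (4 * k) * Real.log 2 :=
          add_le_add (mul_le_mul_of_nonneg_left g5 (by positivity)) g6
      _ = _ := by rw [hAr]; ring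
  have g8 := le_of_mul_le_mul_right g7 hlog2
  have g9 : (16 * k + 2 : ℝ) * ((2 * L + 3) / (16 * k)) = (2 * L + 3) + (2 * L + 3) / (8 * k) := by
    field_simp
    ring
  rw [g9] at g8
  have g10 : (2 * L + 3 : ℝ) / (8 * k) + L / (4 * k) + 4 < L / k := by
    have e : (L : ℝ) / k - ((2 * L + 3 : ℝ) / (8 * k) + L / (4 * k) + 4) =
        (4 * L - 3 - 32 * k) / (8 * k) := by
      field_simp
      ring
    have : 0 < (4 * L - 3 - 32 * k) / (8 * (k : ℝ)) := by
      apply div_pos _ (by positivity)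
      linarith
    linarith
  linarith

end Pool.Agent.PrimRoot
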