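import Pool.Agent.PRT.MainRoot

/-!
# A polynomial time Turing machine which finds one near-primitive root for special primes
-/

set_option autoImplicit false

namespace Pool.Agent.PrimRoot.PolyTimeRoot

open Pool.Agent.PRT

/-- `p - 1` has at most one prime factor (of any multiplicity) above `R`. -/
def OneBig (R p : ℕ) : Prop := ∀ q q' : ℕ, q.Prime → q'.Prime → q ∣ p - 1 → q' ∣ p - 1 →
  R < q → R < q' → q = q'

/-- For all `ε > 0` and `C` there is a function `g` from natural numbers to natural numbers which is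
computed in polynomial time by a Turing machine (input and output in binary), such that, with `L` the
number of binary digits of `p`,

* for every prime `p` such that `p - 1` has at most one prime factor above `L ^ C`, the residue of
  `g p` generates a subgroup of index less than `p ^ ε` of the multiplicative group modulo `p`;
* for every prime `p` such that `p - 1` has at most one odd prime factor `q`, and `q ≥ p ^ ε`, the
  number `g p` is a primitive root modulo `p`;
* for `L` large and all but at most `2 ^ (ε L)` of the primes `p` with `L` digits, if `p - 1` has at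
  most one prime factor above `L ^ C`, then `g p` is a primitive root modulo `p`. -/
theorem result (ε : ℝ) (hε : 0 < ε) (C : ℕ) : ∃ g : ℕ → ℕ,
    Nonempty (Turing.TM2ComputableInPolyTime Nat.bits Nat.bits g) ∧
    (∀ p : ℕ, p.Prime → OneBig (Nat.size p ^ C) p →
      (p : ℝ) - 1 < (p : ℝ) ^ ε * orderOf ((g p : ℕ) : ZMod p)) ∧
    (∀ p : ℕ, p.Prime → OneBig 2 p →
      (∀ q : ℕ, q.Prime → q ∣ p - 1 → q ≠ 2 → (p : ℝ) ^ ε ≤ q) →
      orderOf ((g p : ℕ) : ZMod p) = p - 1) ∧
    ∃ L0 : ℕ, ∀ L : ℕ, L0 ≤ L → ∃ E : Finset ℕ, (E.card : ℝ) ≤ (2 : ℝ) ^ (ε * L) ∧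
      ∀ p : ℕ, p.Prime → Nat.size p = L → p ∉ E → OneBig (Nat.size p ^ C) p →
        orderOf ((g p : ℕ) : ZMod p) = p - 1 := by
  obtain ⟨A1, p0, hA1, h1⟩ := top_of_rough ε hε
  obtain ⟨A2, L0, h2⟩ := few_bad' ε hε
  obtain ⟨t, ht⟩ := exists_table
  obtain ⟨A, hA⟩ : ∃ A, A = max A1 A2 := ⟨_, rfl⟩
  have hge : ∀ p : ℕ, p.Prime → Nat.size p ^ A1 ≤ Nat.size p ^ A ∧
      Nat.size p ^ A2 ≤ Nat.size p ^ A := by
    intro p hp
    have hs : 0 < Nat.size p := Nat.size_pos.2 hp.pos
    constructor
    · exact Nat.pow_le_pow_right hs (by rw [hA]; exact le_max_left _ _)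
    · exact Nat.pow_le_pow_right hs (by rw [hA]; exact le_max_right _ _)
  have hsz : ∀ p : ℕ, p.Prime → 2 ≤ Nat.size p ^ (C + 1) ∧
      Nat.size p ^ C ≤ Nat.size p ^ (C + 1) := by
    intro p hp
    have hs : 2 ≤ Nat.size p := by
      have : Nat.size 2 ≤ Nat.size p := Nat.size_le_size hp.two_le
      have h5 : Nat.size 2 = 2 := by decide
      omega
    constructor
    · calc 2 ≤ Nat.size p := hs
        _ = Nat.size p ^ 1 := (pow_one _).symm
        _ ≤ Nat.size p ^ (C + 1) := Nat.pow_le_pow_right (by omega) (by omega)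
    · exact Nat.pow_le_pow_right (by omega) (by omega)
  have hsmall : ∀ p : ℕ, p.Prime → p < p0 →
      orderOf ((rootF A C p0 t p : ℕ) : ZMod p) = p - 1 := by
    intro p hp hlt
    unfold rootF
    rw [if_pos hlt]
    exact ht p hp
  have htop : ∀ p : ℕ, p.Prime → OneBig (Nat.size p ^ (C + 1)) p →
      (∀ _ : Fact p.Prime, p0 ≤ p → PrimRoot.genSub (aU p) (Nat.size p ^ A) = ⊤) →
      orderOf ((rootF A C p0 t p : ℕ) : ZMod p) = p - 1 := by
    intro p hp hR hg
    rcases lt_or_ge p p0 with hlt | hge'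
    · exact hsmall p hp hlt
    · have : Fact p.Prime := ⟨hp⟩
      obtain ⟨u, hxu, hu⟩ := rootF_gen (A := A) (C := C) (t := t) p hge' hR
      have h3 := order_of_gen p hxu hu
      rwa [hg this hge', Subgroup.index_top, mul_one] at h3
  have hmono : ∀ {R R' p : ℕ}, R ≤ R' → OneBig R p → OneBig R' p := by
    intro R R' p hRR h q q' hq hq' hqp hqp' h3 h4
    exact h q q' hq hq' hqp hqp' (by omega) (by omega)
  refine ⟨rootF A C p0 t, rootF_poly A C p0 t, ?_, ?_, L0, ?_⟩
  · intro p hp hR
    have : Fact p.Prime := ⟨hp⟩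
    have hp1 : (1 : ℝ) < (p : ℝ) ^ ε :=
      Real.one_lt_rpow (by exact_mod_cast hp.one_lt) hε
    rcases lt_or_ge p p0 with hlt | hge'
    · refine order_lt (i := 1) ?_ (by simpa using hp1)
      simpa using hsmall p hp hlt
    · obtain ⟨u, hxu, hu⟩ := rootF_gen (A := A) (C := C) (t := t) p hge'
        (hmono (hsz p hp).2 hR)
      exact order_lt (order_of_gen p hxu hu) (h1 p hge' _ (hge p hp).1).1
  · intro p hp hR hr
    exact htop p hp (hmono (hsz p hp).1 hR) fun _ hge' => (h1 p hge' _ (hge p hp).1).2 hr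
  · intro L hL
    obtain ⟨E, hE, h⟩ := h2 L hL
    refine ⟨E, hE, fun p hp hpL hpE hR => ?_⟩
    exact htop p hp (hmono (hsz p hp).2 hR) fun _ _ => h p hpL hpE _ (hge p hp).2

end Pool.Agent.PrimRoot.PolyTimeRoot
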