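import Pool.Agent.MP_18a8a6_lc.Size

/-!
Quantitative part: the subgroup generated by `1, ..., (log p)^A` has small index.
-/

set_option autoImplicit false

namespace Pool.Agent.PrimRoot

open Finset

theorem sq_le_two_pow {B : ℕ} (hB : 6 ≤ B) : (B + 1) ^ 2 ≤ 2 ^ B := by
  induction B, hB using Nat.le_induction with
  | base => norm_num
  | succ n hn ih =>
    rw [pow_succ 2 n]
    nlinarith

theorem pi_lower {B L u M : ℕ} (hB : 6 ≤ B) (hu : B ^ u < 2 ^ L) (hM : 4 * L * M ≤ B) :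
    2 * u * M ≤ Nat.primeCounting B := by
  have hlogB : 0 < Real.log B := Real.log_pos (by exact_mod_cast (by omega : 1 < B))
  have h1 := Chebyshev.psi_ge B
  have h2 := Chebyshev.psi_le_primeCounting_mul_log B
  have h3 : (u : ℝ) * Real.log B ≤ L * Real.log 2 := by
    have : ((B : ℝ)) ^ u ≤ (2 : ℝ) ^ L := by exact_mod_cast hu.le
    have h4 := Real.log_le_log (by positivity) this
    rwa [Real.log_pow, Real.log_pow] at h4
  have h5 : 2 * Real.log (B + 1) ≤ B * Real.log 2 := by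
    have : ((B : ℝ) + 1) ^ 2 ≤ (2 : ℝ) ^ B := by exact_mod_cast sq_le_two_pow hB
    have h4 := Real.log_le_log (by positivity) this
    rw [Real.log_pow, Real.log_pow] at h4
    exact_mod_cast h4
  have hlog2 : 0 < Real.log 2 := Real.log_pos (by norm_num)
  have h6 : (4 : ℝ) * L * M ≤ B := by exact_mod_cast hM
  have h7 : (2 * u * M : ℝ) * Real.log B ≤ (Nat.primeCounting B : ℝ) * Real.log B := by
    calc (2 * u * M : ℝ) * Real.log B = 2 * M * (u * Real.log B) := by ring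
      _ ≤ 2 * M * (L * Real.log 2) := by
          apply mul_le_mul_of_nonneg_left h3 (by positivity)
      _ = (4 * L * M) * Real.log 2 / 2 := by ring
      _ ≤ B * Real.log 2 / 2 := by
          apply div_le_div_of_nonneg_right _ (by norm_num)
          exact mul_le_mul_of_nonneg_right h6 hlog2.le
      _ ≤ B * Real.log 2 - Real.log (B + 1) := by linarith
      _ ≤ _ := h1.trans h2
  have h8 : (2 * u * M : ℝ) ≤ (Nat.primeCounting B : ℝ) := le_of_mul_le_mul_right h7 hlogB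
  exact_mod_cast h8

/-- `card H ≥ M^u` -/
theorem card_ge_pow (p : ℕ) [Fact p.Prime] {B L u M : ℕ} (hB : 6 ≤ B) (hBp : B < p)
    (hu : B ^ u < p) (hp : p < 2 ^ L) (hM : 4 * L * M ≤ B) (hM1 : 1 ≤ M) (hu0 : 0 < u) :
    M ^ u ≤ Nat.card (genSub (res p) B) := by
  have h1 : 2 * u * M ≤ Nat.primeCounting B := pi_lower hB (hu.trans hp) hM
  have h2 := card_genSub_ge p B u hBp hu
  have h3 : 2 * u ≤ Nat.primeCounting B := le_trans (by nlinarith) h1
  have h4 := pow_le_choose' (Nat.primeCounting B) u hu0 h3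
  have hupos : (0 : ℝ) < u := by exact_mod_cast hu0
  have h5 : (M : ℝ) ≤ (Nat.primeCounting B : ℝ) / (2 * u) := by
    rw [le_div_iff₀ (by positivity)]
    have : ((2 * u * M : ℕ) : ℝ) ≤ (Nat.primeCounting B : ℝ) := by exact_mod_cast h1
    push_cast at this
    linarith
  have h6 : ((M : ℝ)) ^ u ≤ ((Nat.card (genSub (res p) B) : ℕ) : ℝ) := by
    calc (M : ℝ) ^ u ≤ ((Nat.primeCounting B : ℝ) / (2 * u)) ^ u :=
          pow_le_pow_left₀ (by positivity) h5 u
      _ ≤ ((Nat.primeCounting B).choose u : ℝ) := h4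
      _ ≤ _ := by exact_mod_cast h2
  exact_mod_cast h6

/-- For every exponent `m`, `(n+1)^m < 2^n` eventually. -/
theorem exists_pow_lt (m : ℕ) : ∃ n0 : ℕ, ∀ n, n0 ≤ n → (n + 1) ^ m < 2 ^ n := by
  have h := tendsto_pow_const_div_const_pow_of_one_lt m (show (1 : ℝ) < 2 by norm_num)
  have h2 := (h.comp (Filter.tendsto_add_atTop_nat 1))
  have h3 := (h2.eventually (gt_mem_nhds (show (0 : ℝ) < 1 / 2 by norm_num)))
  rw [Filter.eventually_atTop] at h3
  obtain ⟨n0, hn0⟩ := h3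
  refine ⟨n0, fun n hn => ?_⟩
  have h4 := hn0 n hn
  simp only [Function.comp] at h4
  rw [div_lt_iff₀ (by positivity)] at h4
  have h5 : ((n + 1 : ℕ) : ℝ) ^ m < (2 : ℝ) ^ n := by
    calc ((n + 1 : ℕ) : ℝ) ^ m < 1 / 2 * 2 ^ (n + 1) := h4
      _ = 2 ^ n := by rw [pow_succ]; ring
  exact_mod_cast h5

/-- **Index bound.** -/
theorem index_lt (ε : ℝ) (hε : 0 < ε) : ∃ A p0 : ℕ, 1 ≤ A ∧ ∀ (p : ℕ) [Fact p.Prime], p0 ≤ p →
    (Nat.log 2 p + 1) ^ A < p ∧ 4 ≤ Nat.log 2 p + 1 ∧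
    (((Nat.log 2 p + 1) ^ (A + 1) : ℕ) : ℝ) < (p : ℝ) ^ ε ∧
    ((genSub (res p) ((Nat.log 2 p + 1) ^ A)).index : ℝ) < (p : ℝ) ^ ε := by
  -- reduce to small ε
  wlog hε1 : ε ≤ 1 / 2 generalizing ε with H
  · obtain ⟨A, p0, hA, h⟩ := H (1 / 2) (by norm_num) le_rfl
    refine ⟨A, p0, hA, fun p _ hp => ?_⟩
    obtain ⟨h1, h2, h3, h4⟩ := h p hp
    have hmono : (p : ℝ) ^ (1 / 2 : ℝ) ≤ (p : ℝ) ^ ε := ?_
    · exact ⟨h1, h2, h3.trans_le hmono, h4.trans_le hmono⟩
    have hp1 : (1 : ℝ) ≤ p := by exact_mod_cast (Fact.out : p.Prime).one_lt.le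
    exact Real.rpow_le_rpow_of_exponent_le hp1 (by linarith)
  obtain ⟨A, hA⟩ := exists_nat_ge (4 / ε)
  obtain ⟨k, hk⟩ := exists_nat_ge (2 / ε)
  have hA4 : 4 ≤ ε * A := by rwa [div_le_iff₀ hε, mul_comm] at hA
  have hk2 : 2 ≤ ε * k := by rwa [div_le_iff₀ hε, mul_comm] at hk
  have hA8 : 8 ≤ A := by
    have : (8 : ℝ) ≤ A := by nlinarith
    exact_mod_cast this
  have hk4 : 4 ≤ k := by
    have : (4 : ℝ) ≤ k := by nlinarith
    exact_mod_cast this
  obtain ⟨n0, hn0⟩ := exists_pow_lt ((A + 1) * k)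
  refine ⟨A, 2 ^ (max n0 3), by omega, fun p _ hp => ?_⟩
  have hpp : p.Prime := Fact.out
  set L := Nat.log 2 p + 1 with hL
  have hlog : max n0 3 ≤ Nat.log 2 p := Nat.le_log_of_pow_le (by norm_num) hp
  have hL4 : 4 ≤ L := by have := le_trans (le_max_right n0 3) hlog; omega
  have hpL : p < 2 ^ L := Nat.lt_pow_succ_log_self (by norm_num) p
  have h2p : 2 ^ Nat.log 2 p ≤ p := Nat.pow_log_le_self 2 hpp.ne_zero
  set B := L ^ A with hB
  have hTk : (L ^ (A + 1)) ^ k < p := by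
    rw [← pow_mul]
    exact (hn0 _ (le_trans (le_max_left n0 3) hlog)).trans_le h2p
  have hBk : B ^ k < p := by
    refine lt_of_le_of_lt ?_ hTk
    apply Nat.pow_le_pow_left
    rw [hB]
    exact Nat.pow_le_pow_right (by omega) (by omega)
  have hB1 : 1 < B := by
    rw [hB]; exact Nat.one_lt_pow (by omega) (by omega)
  have hB6 : 6 ≤ B := by
    calc 6 ≤ 4 ^ 2 := by norm_num
      _ ≤ L ^ 2 := Nat.pow_le_pow_left hL4 2
      _ ≤ L ^ A := Nat.pow_le_pow_right (by omega) (by omega)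
  have hBp : B < p := by
    calc B = B ^ 1 := (pow_one B).symm
      _ ≤ B ^ k := Nat.pow_le_pow_right (by omega) (by omega)
      _ < p := hBk
  have hTε : (((L ^ (A + 1)) : ℕ) : ℝ) < (p : ℝ) ^ ε := by
    have hp1 : (1 : ℝ) ≤ p := by exact_mod_cast hpp.one_lt.le
    have h1 : (((L ^ (A + 1)) : ℕ) : ℝ) ^ (k : ℝ) < (p : ℝ) := by
      rw [Real.rpow_natCast]; exact_mod_cast hTk
    have hk0 : (0 : ℝ) < k := by exact_mod_cast (by omega : 0 < k)
    have h2 : (((L ^ (A + 1)) : ℕ) : ℝ) < (p : ℝ) ^ (1 / (k : ℝ)) := by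
      rw [one_div]
      exact (Real.lt_rpow_inv_iff_of_pos (by positivity) (by positivity) hk0).2 h1
    refine h2.trans_le (Real.rpow_le_rpow_of_exponent_le hp1 ?_)
    rw [div_le_iff₀ hk0]
    linarith
  refine ⟨hBp, hL4, hTε, ?_⟩
  set u := Nat.log B (p - 1) with hu
  have hku : k ≤ u := Nat.le_log_of_pow_le hB1 (by omega)
  have hu1 : B ^ u < p := by
    have : B ^ u ≤ p - 1 := Nat.pow_log_le_self B (by have := hpp.two_le; omega)
    have := hpp.two_le
    omega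
  have hu2 : p ≤ B ^ (u + 1) := by
    have : p - 1 < B ^ (u + 1) := Nat.lt_pow_succ_log_self hB1 (p - 1)
    omega
  -- card H ≥ (L^(A-2))^u
  have hcard : (L ^ (A - 2)) ^ u ≤ Nat.card (genSub (res p) B) := by
    apply card_ge_pow p hB6 hBp hu1 hpL _ (Nat.one_le_pow _ _ (by omega)) (by omega)
    calc 4 * L * L ^ (A - 2) ≤ L * L * L ^ (A - 2) := by
          apply Nat.mul_le_mul_right; apply Nat.mul_le_mul_right; exact hL4
      _ = B := by
          rw [hB, ← pow_two, ← pow_add]; congr 1; omega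
  have hmul : (genSub (res p) B).index * Nat.card (genSub (res p) B) = p - 1 := by
    rw [mul_comm, Subgroup.card_mul_index, Nat.card_eq_fintype_card, ZMod.card_units]
  have hLpos : (0 : ℝ) < L := by exact_mod_cast (by omega : 0 < L)
  have hL1 : (1 : ℝ) ≤ L := by exact_mod_cast (by omega : 1 ≤ L)
  have hppos : (0 : ℝ) < p := by exact_mod_cast hpp.pos
  -- key inequality in the exponents
  have hexp : (A : ℝ) * (u + 1) * (1 - ε) ≤ (A - 2) * u := by
    have hur : (k : ℝ) ≤ u := by exact_mod_cast hku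
    have hu0 : (0 : ℝ) ≤ u := by positivity
    have hA0 : (0 : ℝ) ≤ A := by positivity
    have e1 : ε * k ≤ ε * u := mul_le_mul_of_nonneg_left hur hε.le
    have e2 : 2 * u ≤ ε * A * u / 2 := by nlinarith
    have e3 : (A : ℝ) ≤ ε * A * u / 2 := by nlinarith
    nlinarith
  have hkey : (p : ℝ) ^ (1 - ε) ≤ ((L : ℝ) ^ (A - 2)) ^ u := by
    have h1 : (p : ℝ) ≤ (L : ℝ) ^ ((A : ℝ) * (u + 1)) := by
      have : (p : ℝ) ≤ ((B ^ (u + 1) : ℕ) : ℝ) := by exact_mod_cast hu2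
      refine this.trans (le_of_eq ?_)
      rw [hB, ← pow_mul]
      push_cast
      rw [← Real.rpow_natCast]
      push_cast
      ring_nf
    calc (p : ℝ) ^ (1 - ε) ≤ ((L : ℝ) ^ ((A : ℝ) * (u + 1))) ^ (1 - ε) :=
          Real.rpow_le_rpow hppos.le h1 (by linarith)
      _ = (L : ℝ) ^ ((A : ℝ) * (u + 1) * (1 - ε)) := by rw [← Real.rpow_mul hLpos.le]
      _ ≤ (L : ℝ) ^ (((A : ℝ) - 2) * u) := Real.rpow_le_rpow_of_exponent_le hL1 hexp
      _ = ((L : ℝ) ^ (A - 2)) ^ u := by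
          rw [← pow_mul, ← Real.rpow_natCast]
          congr 1
          push_cast [Nat.cast_sub (show 2 ≤ A by omega)]
          ring
  have hcr : ((L : ℝ) ^ (A - 2)) ^ u ≤ (Nat.card (genSub (res p) B) : ℝ) := by
    exact_mod_cast hcard
  have hfin : ((genSub (res p) B).index : ℝ) * (p : ℝ) ^ (1 - ε) < (p : ℝ) := by
    calc ((genSub (res p) B).index : ℝ) * (p : ℝ) ^ (1 - ε)
        ≤ ((genSub (res p) B).index : ℝ) * (Nat.card (genSub (res p) B) : ℝ) :=
          mul_le_mul_of_nonneg_left (hkey.trans hcr) (by positivity)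
      _ = ((p - 1 : ℕ) : ℝ) := by rw [← hmul]; push_cast; ring
      _ < p := by
          have : p - 1 < p := by have := hpp.two_le; omega
          exact_mod_cast this
  have hsplit : (p : ℝ) = (p : ℝ) ^ ε * (p : ℝ) ^ (1 - ε) := by
    rw [← Real.rpow_add hppos]; simp
  have hpos : (0 : ℝ) < (p : ℝ) ^ (1 - ε) := Real.rpow_pos_of_pos hppos _
  rw [hsplit] at hfin
  have h9 : ((genSub (res p) B).index : ℝ) * ((p : ℝ) ^ ε * (p : ℝ) ^ (1 - ε)) ^ (1 - ε) =
    ((genSub (res p) B).index : ℝ) * (p : ℝ) ^ (1 - ε) := by rw [← hsplit]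
  rw [h9] at hfin
  exact lt_of_mul_lt_mul_right hfin hpos.le

end Pool.Agent.PrimRoot
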