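import Pool.Agent.MP_18a8a6_lc.Smooth

/-!
An explicit list of `(log p)^O(1)` residues that contains a primitive root modulo `p`, for all large
primes `p` such that `p - 1` has no odd prime factor below `p^ε`.
-/

set_option autoImplicit false

namespace Pool.Agent.PrimRoot.RoughPrimes

open Finset Pool.Agent.PrimRoot

/-- The candidate with parameter `t`: with `p - 1 = 2^k r`, `r` odd, and
`w = ∏_{i ≤ B} i^(t^i)` modulo `p`, it is `(-3)^r w^(2^k)`. -/
noncomputable def cand (p : ℕ) [Fact p.Prime] (B t : ℕ) : (ZMod p)ˣ :=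
  (-res p 3) ^ cofac (p - 1) 2 * wElt (res p) B t ^ 2 ^ (p - 1).factorization 2

/-- For every `ε > 0` there are `A, p0` such that for every prime `p ≥ p0` such that every odd prime
factor of `p - 1` is at least `p ^ ε`, one of the `(⌊log₂ p⌋ + 1)^(A+1)` candidates is a primitive
root modulo `p`. -/
theorem result (ε : ℝ) (hε : 0 < ε) : ∃ A p0 : ℕ, ∀ (p : ℕ) [Fact p.Prime], p0 ≤ p →
    (∀ q : ℕ, q.Prime → q ∣ p - 1 → q ≠ 2 → (p : ℝ) ^ ε ≤ q) →
    ∃ t ∈ Icc 1 ((Nat.log 2 p + 1) ^ (A + 1)),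
      orderOf (cand p ((Nat.log 2 p + 1) ^ A) t) = p - 1 := by
  obtain ⟨A, p0, hA, h⟩ := index_lt ε hε
  refine ⟨A, max p0 5, fun p _ hp hrough => ?_⟩
  obtain ⟨hBp, hL4, hT, hidx⟩ := h p (le_trans (le_max_left _ _) hp)
  have hp5 : 5 ≤ p := le_trans (le_max_right _ _) hp
  have hpp : p.Prime := Fact.out
  set L := Nat.log 2 p + 1 with hL
  have hN : Nat.card (ZMod p)ˣ = p - 1 := by rw [Nat.card_eq_fintype_card, ZMod.card_units]
  have hcyc : IsCyclic (ZMod p)ˣ := inferInstance
  have hlt : L ^ A * Nat.log 2 (Nat.card (ZMod p)ˣ) < L ^ (A + 1) := by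
    rw [hN, pow_succ]
    apply Nat.mul_lt_mul_of_pos_left
    · have : Nat.log 2 (p - 1) ≤ Nat.log 2 p := Nat.log_mono_right (Nat.sub_le _ _)
      omega
    · exact Nat.pow_pos (by omega)
  have hp10 : p - 1 ≠ 0 := by omega
  have hodd2 : p % 2 = 1 := by
    rcases hpp.eq_two_or_odd with h | h
    · omega
    · exact h
  have h2dvd : 2 ∣ p - 1 := by omega
  have hT4 : 4 ≤ L ^ (A + 1) := by
    calc 4 ≤ L := hL4
      _ = L ^ 1 := (pow_one L).symm
      _ ≤ L ^ (A + 1) := Nat.pow_le_pow_right (by omega) (by omega)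
  have hbig : ∀ q : ℕ, q.Prime → q ∣ p - 1 → q ≠ 2 → L ^ (A + 1) < q := by
    intro q hq hqN hq2
    have : (((L ^ (A + 1)) : ℕ) : ℝ) < (q : ℝ) := hT.trans_le (hrough q hq hqN hq2)
    exact_mod_cast this
  -- the smooth part is a power of two
  have hsmall : smallPrimes (L ^ (A + 1)) (p - 1) = {2} := by
    ext q
    rw [mem_smallPrimes, Finset.mem_singleton]
    constructor
    · rintro ⟨⟨hq, hqN, _⟩, hqT⟩
      by_contra hq2
      have := hbig q hq hqN hq2
      omega
    · rintro rfl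
      exact ⟨⟨Nat.prime_two, h2dvd, hp10⟩, by omega⟩
  have hsm : smoothPart (L ^ (A + 1)) (p - 1) = 2 ^ (p - 1).factorization 2 := by
    unfold smoothPart; rw [hsmall, Finset.prod_singleton]
  set v := (p - 1).factorization 2 with hv
  have hv1 : 1 ≤ v := (Nat.prime_two.dvd_iff_one_le_factorization hp10).1 h2dvd
  have hcm : cofac (p - 1) 2 * 2 ^ v = p - 1 := cofac_mul
  -- `-3` is a quadratic nonresidue
  have h3dvd : ¬ 3 ∣ p - 1 := by
    intro h3
    have := hbig 3 Nat.prime_three h3 (by norm_num)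
    omega
  have hns : ¬ IsSquare (-3 : ZMod p) := not_isSquare_neg_three p (by omega) h3dvd
  have hne0 : (-3 : ZMod p) ≠ 0 := by
    intro h0
    apply hns
    rw [h0]
    exact IsSquare.zero
  have hhalf : (-3 : ZMod p) ^ (p / 2) = -1 := by
    rcases ZMod.pow_div_two_eq_neg_one_or_one p hne0 with h1 | h1
    · exact absurd ((ZMod.euler_criterion p hne0).2 h1) hns
    · exact h1
  have hres : ((-res p 3) ^ ((p - 1) / 2) : (ZMod p)ˣ) = -1 := by
    apply Units.ext
    rw [Units.val_pow_eq_pow_val, Units.val_neg, res_val (by norm_num) (by omega), Units.val_neg,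
      Units.val_one]
    push_cast
    rw [show (p - 1) / 2 = p / 2 by omega]
    exact hhalf
  have hζ : orderOf ((-res p 3) ^ cofac (p - 1) 2 : (ZMod p)ˣ) =
      smoothPart (L ^ (A + 1)) (Nat.card (ZMod p)ˣ) := by
    rw [hN, hsm]
    obtain ⟨n, hn⟩ : ∃ n, v = n + 1 := ⟨v - 1, by omega⟩
    rw [hn]
    rw [hn] at hcm
    apply orderOf_eq_prime_pow
    · rw [← pow_mul]
      have : cofac (p - 1) 2 * 2 ^ n = (p - 1) / 2 := by
        refine (Nat.div_eq_of_eq_mul_left (by norm_num) ?_).symm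
        rw [mul_assoc, ← pow_succ]
        exact hcm.symm
      rw [this, hres]
      intro hcon
      have h1 : ((-1 : (ZMod p)ˣ) : ZMod p) = 1 := by rw [hcon]; simp
      rw [Units.val_neg, Units.val_one] at h1
      have : Fact (2 < p) := ⟨by omega⟩
      exact ZMod.neg_one_ne_one h1
    · rw [← pow_mul, hcm, ← hN]
      exact pow_card_eq_one'
  obtain ⟨t, ht, hd1, hd2⟩ := core_smooth (res p) (L ^ A) (L ^ (A + 1)) hlt hζ
  refine ⟨t, ht, ?_⟩
  rw [hN, hsm] at hd1 hd2
  change 2 ^ v ∣ orderOf (cand p (L ^ A) t) at hd1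
  change Nat.card (genSub (res p) (L ^ A)) ∣ orderOf (cand p (L ^ A) t) at hd2
  set n := orderOf (cand p (L ^ A) t) with hn
  have hnd : n ∣ p - 1 := by
    rw [← hN]
    exact orderOf_dvd_natCard _
  obtain ⟨i, hi⟩ := hnd
  have hi0 : i ≠ 0 := by
    rintro rfl
    rw [mul_zero] at hi
    exact hp10 hi
  have hn0 : n ≠ 0 := by
    intro h0
    rw [h0, zero_mul] at hi
    exact hp10 hi
  have hmul : Nat.card (genSub (res p) (L ^ A)) * (genSub (res p) (L ^ A)).index = p - 1 := by
    rw [Subgroup.card_mul_index, hN]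
  have hile : i ≤ (genSub (res p) (L ^ A)).index := by
    obtain ⟨c, hc⟩ := hd2
    have hc0 : c ≠ 0 := by
      rintro rfl
      rw [mul_zero] at hc
      exact hn0 hc
    have h1 : Nat.card (genSub (res p) (L ^ A)) * (c * i) =
        Nat.card (genSub (res p) (L ^ A)) * (genSub (res p) (L ^ A)).index := by
      rw [hmul, hi, hc]; ring
    have h2 : c * i = (genSub (res p) (L ^ A)).index :=
      Nat.eq_of_mul_eq_mul_left Nat.card_pos h1
    rw [← h2]
    exact Nat.le_mul_of_pos_left i (Nat.pos_of_ne_zero hc0)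
  have hi1 : i = 1 := by
    by_contra hi1
    obtain ⟨q, hq, hqi⟩ := Nat.exists_prime_and_dvd hi1
    have hqN : q ∣ p - 1 := by rw [hi]; exact hqi.mul_left n
    have hq2 : q ≠ 2 := by
      rintro rfl
      have h1 : 2 ^ (v + 1) ∣ p - 1 := by
        rw [pow_succ, hi]
        exact Nat.mul_dvd_mul hd1 hqi
      exact Nat.pow_succ_factorization_not_dvd hp10 Nat.prime_two h1
    have h1 : q ≤ (genSub (res p) (L ^ A)).index :=
      (Nat.le_of_dvd (Nat.pos_of_ne_zero hi0) hqi).trans hile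
    have h2 : (q : ℝ) ≤ ((genSub (res p) (L ^ A)).index : ℝ) := by exact_mod_cast h1
    exact absurd ((hrough q hq hqN hq2).trans h2) (not_le.2 hidx)
  rw [hi1, mul_one] at hi
  exact hi.symm

end Pool.Agent.PrimRoot.RoughPrimes
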