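import Pool.Agent.MP_18a8a6_lc.Core

/-!
Lower bound for the order of the subgroup of `(ZMod p)ˣ` generated by small integers.
-/

set_option autoImplicit false

namespace Pool.Agent.PrimRoot

open Finset

theorem res_val {p : ℕ} [Fact p.Prime] {i : ℕ} (h0 : 0 < i) (h : i < p) :
    ((res p i : (ZMod p)ˣ) : ZMod p) = (i : ZMod p) := by
  have h1 : (i : ZMod p) ≠ 0 := by
    intro hz
    rw [ZMod.natCast_eq_zero_iff] at hz
    exact absurd (Nat.le_of_dvd h0 hz) (by omega)
  simp [res, h1]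

theorem prod_le_pow_card {s : Finset ℕ} {B : ℕ} (h : ∀ q ∈ s, q ≤ B) :
    ∏ q ∈ s, q ≤ B ^ s.card := Finset.prod_le_pow_card s _ B h

theorem card_genSub_ge (p : ℕ) [Fact p.Prime] (B u : ℕ) (hBp : B < p) (hu : B ^ u < p) :
    (Nat.primeCounting B).choose u ≤ Nat.card (genSub (res p) B) := by
  classical
  have hcard : (Nat.primesLE B).card = Nat.primeCounting B := Nat.primesLE_card_eq_primeCounting B
  rw [← hcard, ← Finset.card_powersetCard]
  have hprime : ∀ q ∈ Nat.primesLE B, q.Prime ∧ q ≤ B := by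
    intro q hq
    rw [Nat.mem_primesLE] at hq
    exact ⟨hq.2, hq.1⟩
  let F : Finset ℕ → genSub (res p) B := fun s =>
    if hs : s ∈ Finset.powersetCard u (Nat.primesLE B) then
      ⟨∏ q ∈ s, res p q, Subgroup.prod_mem _ fun q hq => by
        have h1 := hprime q ((Finset.mem_powersetCard.1 hs).1 hq)
        exact a_mem (res p) B (Finset.mem_Icc.2 ⟨h1.1.one_lt.le, h1.2⟩)⟩
    else 1
  have hval : ∀ s ∈ Finset.powersetCard u (Nat.primesLE B),
      (((F s : (ZMod p)ˣ)) : ZMod p) = ((∏ q ∈ s, q : ℕ) : ZMod p) := by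
    intro s hs
    simp only [F, dif_pos hs]
    rw [Units.coe_prod, Nat.cast_prod]
    apply Finset.prod_congr rfl
    intro q hq
    have h1 := hprime q ((Finset.mem_powersetCard.1 hs).1 hq)
    exact res_val h1.1.pos (lt_of_le_of_lt h1.2 hBp)
  have hlt : ∀ s ∈ Finset.powersetCard u (Nat.primesLE B), ∏ q ∈ s, q < p := by
    intro s hs
    rw [Finset.mem_powersetCard] at hs
    refine lt_of_le_of_lt ?_ hu
    rw [← hs.2]
    exact prod_le_pow_card fun q hq => (hprime q (hs.1 hq)).2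
  have hinj : Set.InjOn F (Finset.powersetCard u (Nat.primesLE B) : Set (Finset ℕ)) := by
    intro s hs s' hs' heq
    rw [Finset.mem_coe] at hs hs'
    have h1 : ((∏ q ∈ s, q : ℕ) : ZMod p) = ((∏ q ∈ s', q : ℕ) : ZMod p) := by
      rw [← hval s hs, ← hval s' hs', heq]
    rw [ZMod.natCast_eq_natCast_iff', Nat.mod_eq_of_lt (hlt s hs), Nat.mod_eq_of_lt (hlt s' hs')]
      at h1
    rw [Finset.mem_powersetCard] at hs hs'
    rw [← Nat.primeFactors_prod (fun q hq => (hprime q (hs.1 hq)).1),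
      ← Nat.primeFactors_prod (fun q hq => (hprime q (hs'.1 hq)).1), h1]
  calc (Finset.powersetCard u (Nat.primesLE B)).card
      = ((Finset.powersetCard u (Nat.primesLE B)).image F).card :=
        (Finset.card_image_of_injOn hinj).symm
    _ ≤ Nat.card (genSub (res p) B) := by
        have : Fintype (genSub (res p) B) := Fintype.ofFinite _
        rw [Nat.card_eq_fintype_card]
        exact Finset.card_le_univ _

/-- `(n/(2u))^u ≤ choose n u` for `2u ≤ n` -/
theorem pow_le_choose' (n u : ℕ) (hu : 0 < u) (h : 2 * u ≤ n) :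
    ((n : ℝ) / (2 * u)) ^ u ≤ (n.choose u : ℝ) := by
  have h1 : (((n + 1 - u : ℕ) : ℝ) ^ u) / (u.factorial : ℝ) ≤ (n.choose u : ℝ) :=
    Nat.pow_le_choose u n
  refine le_trans ?_ h1
  have hfac : (u.factorial : ℝ) ≤ (u : ℝ) ^ u := by
    exact_mod_cast Nat.factorial_le_pow u
  have hupos : (0 : ℝ) < u := by exact_mod_cast hu
  have hfpos : (0 : ℝ) < u.factorial := by exact_mod_cast Nat.factorial_pos u
  have hn : (n : ℝ) / 2 ≤ ((n + 1 - u : ℕ) : ℝ) := by
    have : ((n + 1 - u : ℕ) : ℝ) = (n : ℝ) + 1 - u := by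
      rw [Nat.cast_sub (by omega)]; push_cast; ring
    rw [this]
    have h2 : (2 : ℝ) * u ≤ n := by exact_mod_cast h
    linarith
  calc ((n : ℝ) / (2 * u)) ^ u = ((n : ℝ) / 2) ^ u / (u : ℝ) ^ u := by
        rw [← div_pow, div_div]
    _ ≤ ((n + 1 - u : ℕ) : ℝ) ^ u / (u : ℝ) ^ u := by
        apply div_le_div_of_nonneg_right _ (by positivity)
        exact pow_le_pow_left₀ (by positivity) hn u
    _ ≤ (((n + 1 - u : ℕ) : ℝ) ^ u) / (u.factorial : ℝ) :=
        div_le_div_of_nonneg_left (by positivity) hfpos hfac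

end Pool.Agent.PrimRoot
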