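import Pool.Agent.MP_18a8a6_lc.Smooth

/-!
For every large prime `p`: an element of order the smooth part of `p - 1` yields a list of
`(log p)^O(1)` residues one of which has index less than `p^ε` and prime to all small primes.
-/

set_option autoImplicit false

namespace Pool.Agent.PrimRoot.SmoothRoots

open Finset Pool.Agent.PrimRoot

/-- The candidate with parameter `t` built on `ζ`: with `m` the `T`-smooth part of `p - 1` and
`w = ∏_{i ≤ B} i^(t^i)` modulo `p`, it is `ζ w^m`. -/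
noncomputable def cand (p : ℕ) [Fact p.Prime] (B T : ℕ) (ζ : (ZMod p)ˣ) (t : ℕ) : (ZMod p)ˣ :=
  ζ * wElt (res p) B t ^ smoothPart T (p - 1)

/-- For every `ε > 0` there are `A, p0` such that for every prime `p ≥ p0` the following holds with
`L = ⌊log₂ p⌋ + 1`, `B = L ^ A`, `T = L ^ (A + 1)`. Let `ζ` be of order the `T`-smooth part of
`p - 1`. Then one of the `T` candidates built on `ζ` generates a subgroup of index less than
`p ^ ε`, all of whose prime factors are greater than `T`. -/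
theorem result (ε : ℝ) (hε : 0 < ε) : ∃ A p0 : ℕ, ∀ (p : ℕ) [Fact p.Prime], p0 ≤ p →
    ∀ ζ : (ZMod p)ˣ, orderOf ζ = smoothPart ((Nat.log 2 p + 1) ^ (A + 1)) (p - 1) →
      ∃ t ∈ Icc 1 ((Nat.log 2 p + 1) ^ (A + 1)),
        ((Subgroup.zpowers (cand p ((Nat.log 2 p + 1) ^ A) ((Nat.log 2 p + 1) ^ (A + 1)) ζ
          t)).index : ℝ) < (p : ℝ) ^ ε ∧
        ∀ q : ℕ, q.Prime → q ∣ (Subgroup.zpowers (cand p ((Nat.log 2 p + 1) ^ A)
          ((Nat.log 2 p + 1) ^ (A + 1)) ζ t)).index → (Nat.log 2 p + 1) ^ (A + 1) < q := by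
  obtain ⟨A, p0, hA, h⟩ := index_lt ε hε
  refine ⟨A, max p0 3, fun p _ hp ζ hζ => ?_⟩
  obtain ⟨hBp, hL4, hT, hidx⟩ := h p (le_trans (le_max_left _ _) hp)
  have hp3 : 3 ≤ p := le_trans (le_max_right _ _) hp
  have hpp : p.Prime := Fact.out
  set L := Nat.log 2 p + 1 with hL
  have hN : Nat.card (ZMod p)ˣ = p - 1 := by rw [Nat.card_eq_fintype_card, ZMod.card_units]
  have hcyc : IsCyclic (ZMod p)ˣ := inferInstance
  have hlt : L ^ A * Nat.log 2 (Nat.card (ZMod p)ˣ) < L ^ (A + 1) := by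
    rw [hN, pow_succ]
    apply Nat.mul_lt_mul_of_pos_left
    · have : Nat.log 2 (p - 1) ≤ Nat.log 2 p := Nat.log_mono_right (Nat.sub_le _ _)
      omega
    · exact Nat.pow_pos (by omega)
  have hp10 : p - 1 ≠ 0 := by omega
  rw [← hN] at hζ
  obtain ⟨t, ht, hd1, hd2⟩ := core_smooth (res p) (L ^ A) (L ^ (A + 1)) hlt hζ
  refine ⟨t, ht, ?_⟩
  rw [hN] at hd1 hd2
  change smoothPart (L ^ (A + 1)) (p - 1) ∣ orderOf (cand p (L ^ A) (L ^ (A + 1)) ζ t) at hd1
  change Nat.card (genSub (res p) (L ^ A)) ∣ orderOf (cand p (L ^ A) (L ^ (A + 1)) ζ t) at hd2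
  set g := cand p (L ^ A) (L ^ (A + 1)) ζ t with hg
  have hi : orderOf g * (Subgroup.zpowers g).index = p - 1 := by
    rw [← Nat.card_zpowers, Subgroup.card_mul_index, hN]
  have hn0 : orderOf g ≠ 0 := by
    intro h0
    rw [h0, zero_mul] at hi
    exact hp10 hi.symm
  have hi0 : (Subgroup.zpowers g).index ≠ 0 := by
    intro h0
    rw [h0, mul_zero] at hi
    exact hp10 hi.symm
  have hmul : Nat.card (genSub (res p) (L ^ A)) * (genSub (res p) (L ^ A)).index = p - 1 := by
    rw [Subgroup.card_mul_index, hN]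
  have hile : (Subgroup.zpowers g).index ≤ (genSub (res p) (L ^ A)).index := by
    obtain ⟨c, hc⟩ := hd2
    have hc0 : c ≠ 0 := by
      rintro rfl
      rw [mul_zero] at hc
      exact hn0 hc
    have h1 : Nat.card (genSub (res p) (L ^ A)) * (c * (Subgroup.zpowers g).index) =
        Nat.card (genSub (res p) (L ^ A)) * (genSub (res p) (L ^ A)).index := by
      rw [hmul, ← hi, hc]; ring
    have h2 : c * (Subgroup.zpowers g).index = (genSub (res p) (L ^ A)).index :=
      Nat.eq_of_mul_eq_mul_left Nat.card_pos h1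
    rw [← h2]
    exact Nat.le_mul_of_pos_left _ (Nat.pos_of_ne_zero hc0)
  refine ⟨lt_of_le_of_lt (by exact_mod_cast hile) hidx, ?_⟩
  intro q hq hqi
  by_contra hqT
  push Not at hqT
  have h1 : smoothPart (L ^ (A + 1)) (p - 1) * q ∣ p - 1 := by
    conv_rhs => rw [← hi]
    exact Nat.mul_dvd_mul hd1 hqi
  apply not_dvd_div_smoothPart hp10 hq hqT
  exact (Nat.dvd_div_iff_mul_dvd (smoothPart_dvd _ _ hp10)).2 h1

end Pool.Agent.PrimRoot.SmoothRoots
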